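import Pool.Agent.R601.QT.Defs

set_option autoImplicit false

namespace Pool.Agent.R601.QT

open Function

theorem Tm.val_congr {M : Type} (S : Str M) {e e' : ℕ → M} :
    ∀ t : Tm, (∀ i ∈ t.vars, e i = e' i) → t.val S e = t.val S e'
  | .var i, h => h i (by simp [Tm.vars])
  | .zero, _ => rfl
  | .one, _ => rfl
  | .add s t, h => by
      simp only [Tm.val]
      rw [Tm.val_congr S s (fun i hi => h i (by simp [Tm.vars, hi])),
        Tm.val_congr S t (fun i hi => h i (by simp [Tm.vars, hi]))]
  | .mul s t, h => by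
      simp only [Tm.val]
      rw [Tm.val_congr S s (fun i hi => h i (by simp [Tm.vars, hi])),
        Tm.val_congr S t (fun i hi => h i (by simp [Tm.vars, hi]))]

theorem Fm.sat_congr {M : Type} (S : Str M) :
    ∀ (φ : Fm) (e e' : ℕ → M), (∀ i ∈ φ.free, e i = e' i) → (φ.Sat S e ↔ φ.Sat S e')
  | .eq s t, e, e', h => by
      simp only [Fm.Sat]
      rw [Tm.val_congr S s (fun i hi => h i (by simp [Fm.free, hi])),
        Tm.val_congr S t (fun i hi => h i (by simp [Fm.free, hi]))]
  | .lt s t, e, e', h => by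
      simp only [Fm.Sat]
      rw [Tm.val_congr S s (fun i hi => h i (by simp [Fm.free, hi])),
        Tm.val_congr S t (fun i hi => h i (by simp [Fm.free, hi]))]
  | .neg φ, e, e', h => by
      simp only [Fm.Sat]
      rw [Fm.sat_congr S φ e e' h]
  | .and φ ψ, e, e', h => by
      simp only [Fm.Sat]
      rw [Fm.sat_congr S φ e e' (fun i hi => h i (by simp [Fm.free, hi])),
        Fm.sat_congr S ψ e e' (fun i hi => h i (by simp [Fm.free, hi]))]
  | .ex i φ, e, e', h => by
      simp only [Fm.Sat]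
      apply exists_congr
      intro a
      apply Fm.sat_congr S φ
      intro j hj
      by_cases hji : j = i
      · subst hji; simp
      · simp only [update_of_ne hji]
        exact h j (by simp [Fm.free, hj, hji])
  | .all i φ, e, e', h => by
      simp only [Fm.Sat]
      apply forall_congr'
      intro a
      apply Fm.sat_congr S φ
      intro j hj
      by_cases hji : j = i
      · subst hji; simp
      · simp only [update_of_ne hji]
        exact h j (by simp [Fm.free, hj, hji])

theorem Sentence.sat_iff {M : Type} (S : Str M) {φ : Fm} (h : Sentence φ) (e e' : ℕ → M) :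
    φ.Sat S e ↔ φ.Sat S e' :=
  Fm.sat_congr S φ e e' (fun i hi => by rw [h] at hi; simp at hi)

section sat_lemmas
variable {M : Type} (S : Str M) (e : ℕ → M)

@[simp] theorem sat_eq (s t : Tm) : (Fm.eq s t).Sat S e ↔ s.val S e = t.val S e := Iff.rfl
@[simp] theorem sat_lt (s t : Tm) : (Fm.lt s t).Sat S e ↔ S.lt (s.val S e) (t.val S e) := Iff.rfl
@[simp] theorem sat_neg (φ : Fm) : (Fm.neg φ).Sat S e ↔ ¬ φ.Sat S e := Iff.rfl
@[simp] theorem sat_and (φ ψ : Fm) : (Fm.and φ ψ).Sat S e ↔ φ.Sat S e ∧ ψ.Sat S e := Iff.rfl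
@[simp] theorem sat_ex (i : ℕ) (φ : Fm) :
    (Fm.ex i φ).Sat S e ↔ ∃ a, φ.Sat S (update e i a) := Iff.rfl
@[simp] theorem sat_all (i : ℕ) (φ : Fm) :
    (Fm.all i φ).Sat S e ↔ ∀ a, φ.Sat S (update e i a) := Iff.rfl
@[simp] theorem sat_imp (φ ψ : Fm) : (Fm.imp φ ψ).Sat S e ↔ (φ.Sat S e → ψ.Sat S e) := by
  simp only [Fm.imp, sat_neg, sat_and]; tauto
@[simp] theorem sat_iff (φ ψ : Fm) : (Fm.iff φ ψ).Sat S e ↔ (φ.Sat S e ↔ ψ.Sat S e) := by
  simp only [Fm.iff, sat_and, sat_imp]; tauto
@[simp] theorem sat_bex (i : ℕ) (t : Tm) (φ : Fm) : (Fm.bex i t φ).Sat S e ↔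
    ∃ a, S.lt a (t.val S (update e i a)) ∧ φ.Sat S (update e i a) := by
  simp [Fm.bex, Tm.val]
@[simp] theorem sat_ball (i : ℕ) (t : Tm) (φ : Fm) : (Fm.ball i t φ).Sat S e ↔
    ∀ a, S.lt a (t.val S (update e i a)) → φ.Sat S (update e i a) := by
  simp [Fm.ball, Tm.val]
end sat_lemmas

theorem Tm.val_update {M : Type} (S : Str M) (e : ℕ → M) {i : ℕ} {t : Tm} (h : i ∉ t.vars)
    (a : M) : t.val S (update e i a) = t.val S e := by
  apply Tm.val_congr
  intro j hj
  have : j ≠ i := fun h' => h (h' ▸ hj)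
  simp [update_of_ne this]

/-- Tarski's clauses imply Tarski's biconditionals. -/
theorem TarskiClauses.bicond {M : Type} {S : Str M} {code : Fm → ℕ} {σ ν : Fm}
    (h : TarskiClauses S code σ ν) {φ : Fm} (hφ : IsD0 φ) :
    ∀ (y : M) (a : ℕ → M), (∀ i ∈ φ.free, Sat3 S ν (num S i) y (a i)) →
      (Sat2 S σ (num S (code φ)) y ↔ φ.Sat S a) := by
  induction hφ with
  | eq s t => intro y a hy; exact h.eq s t y a hy
  | lt s t => intro y a hy; exact h.lt s t y a hy
  | neg hφ ih =>
      intro y a hy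
      rw [h.neg _ y a hφ hy, sat_neg, ih y a hy]
  | and hφ hψ ih1 ih2 =>
      intro y a hy
      rw [h.and _ _ y a hφ hψ hy, sat_and,
        ih1 y a (fun i hi => hy i (by simp [Fm.free, hi])),
        ih2 y a (fun i hi => hy i (by simp [Fm.free, hi]))]
  | @bex i t φ hit hφ ih =>
      intro y a hy
      rw [h.bex i t φ y a hit hφ hy, sat_bex]
      apply exists_congr
      intro b
      rw [Tm.val_update S a hit]
      apply and_congr_right
      intro _
      constructor
      · rintro ⟨y', h1, h2⟩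
        exact (ih y' _ h1).1 h2
      · intro h2
        obtain ⟨y', hy'⟩ := h.exists_assignment φ.free (update a i b)
        exact ⟨y', hy', (ih y' _ hy').2 h2⟩
  | @ball i t φ hit hφ ih =>
      intro y a hy
      rw [h.ball i t φ y a hit hφ hy, sat_ball]
      apply forall_congr'
      intro b
      rw [Tm.val_update S a hit]
      apply imp_congr_right
      intro _
      constructor
      · intro h2
        obtain ⟨y', hy'⟩ := h.exists_assignment φ.free (update a i b)
        exact (ih y' _ hy').1 (h2 y' hy')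
      · intro h2 y' h1
        exact (ih y' _ h1).2 h2

/-- the theory of a structure -/
def Th {M : Type} (S : Str M) : Set Fm := {φ | Sentence φ ∧ ∀ e, φ.Sat S e}

theorem models_Th {M : Type} (S : Str M) : Models S (Th S) := fun _ h => h.2

theorem isTheory_Th {M : Type} (S : Str M) : IsTheory (Th S) :=
  ⟨fun _ h => h.1, fun _ h => ⟨h.1, h.2 M S (models_Th S)⟩⟩

theorem consistent_Th {M : Type} (S : Str M) : Consistent (Th S) := by
  rintro φ ⟨h1, h2⟩
  exact h2.2 (fun _ => S.zero) (h1.2 _)

theorem isComplete_Th {M : Type} (S : Str M) : IsComplete (Th S) := by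
  intro φ hφ
  by_cases h : φ.Sat S (fun _ => S.zero)
  · exact Or.inl ⟨hφ, fun e => (hφ.sat_iff S _ _).1 h⟩
  · exact Or.inr ⟨hφ, fun e he => h ((hφ.sat_iff S _ _).1 he)⟩

/-- The only consistent theory containing a complete theory is the theory itself. -/
theorem eq_of_complete {T T' : Set Fm} (hT : IsComplete T) (h : T ⊆ T') (hT' : IsTheory T')
    (hc : Consistent T') : T' = T := by
  apply Set.Subset.antisymm _ h
  intro φ hφ
  rcases hT φ (hT'.1 φ hφ) with h1 | h1
  · exact h1
  · exact absurd ⟨hφ, h h1⟩ (hc φ)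

end Pool.Agent.R601.QT
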