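import Mathlib

/-!
# Theories of arithmetic and restricted complexity: definitions

First-order syntax and semantics of the language `0, 1, +, ×, <`, the class of bounded formulas
(`IsD0`), the classes `Σ_n` and `Π_n` (`IsS true n`, `IsS false n`), theories, and the four classes
of theories of the problem.
-/

set_option autoImplicit false

namespace Pool.Agent.R601.QT

/-- Terms of the language `0, 1, +, ×, <` with the variables `v_0, v_1, …`. -/
inductive Tm : Type
  | var (i : ℕ) : Tm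
  | zero : Tm
  | one : Tm
  | add (s t : Tm) : Tm
  | mul (s t : Tm) : Tm

/-- Formulas of the language `0, 1, +, ×, <`. -/
inductive Fm : Type
  | eq (s t : Tm) : Fm
  | lt (s t : Tm) : Fm
  | neg (φ : Fm) : Fm
  | and (φ ψ : Fm) : Fm
  | ex (i : ℕ) (φ : Fm) : Fm
  | all (i : ℕ) (φ : Fm) : Fm

/-- Structures for the language, with universe `M`. -/
structure Str (M : Type) where
  zero : M
  one : M
  add : M → M → M
  mul : M → M → M
  lt : M → M → Prop

/-- The value of a term under an assignment `e`. -/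
def Tm.val {M : Type} (S : Str M) (e : ℕ → M) : Tm → M
  | .var i => e i
  | .zero => S.zero
  | .one => S.one
  | .add s t => S.add (s.val S e) (t.val S e)
  | .mul s t => S.mul (s.val S e) (t.val S e)

/-- Satisfaction of a formula under an assignment `e`. -/
def Fm.Sat {M : Type} (S : Str M) (e : ℕ → M) : Fm → Prop
  | .eq s t => s.val S e = t.val S e
  | .lt s t => S.lt (s.val S e) (t.val S e)
  | .neg φ => ¬ φ.Sat S e
  | .and φ ψ => φ.Sat S e ∧ ψ.Sat S e
  | .ex i φ => ∃ a, φ.Sat S (Function.update e i a)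
  | .all i φ => ∀ a, φ.Sat S (Function.update e i a)

/-- The variables of a term. -/
def Tm.vars : Tm → Finset ℕ
  | .var i => {i}
  | .zero => ∅
  | .one => ∅
  | .add s t => s.vars ∪ t.vars
  | .mul s t => s.vars ∪ t.vars

/-- The free variables of a formula. -/
def Fm.free : Fm → Finset ℕ
  | .eq s t => s.vars ∪ t.vars
  | .lt s t => s.vars ∪ t.vars
  | .neg φ => φ.free
  | .and φ ψ => φ.free ∪ ψ.free
  | .ex i φ => φ.free.erase i
  | .all i φ => φ.free.erase i

/-- Sentences. -/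
def Sentence (φ : Fm) : Prop := φ.free = ∅

/-- implication -/
def Fm.imp (φ ψ : Fm) : Fm := .neg (.and φ (.neg ψ))

/-- biconditional -/
def Fm.iff (φ ψ : Fm) : Fm := .and (φ.imp ψ) (ψ.imp φ)

/-- the bounded quantifier `∃ v_i < t` -/
def Fm.bex (i : ℕ) (t : Tm) (φ : Fm) : Fm := .ex i (.and (.lt (.var i) t) φ)

/-- the bounded quantifier `∀ v_i < t` -/
def Fm.ball (i : ℕ) (t : Tm) (φ : Fm) : Fm := .all i (Fm.imp (.lt (.var i) t) φ)

/-- `Δ_0`-formulas: all quantifiers are bounded, `∃ v_i < t` or `∀ v_i < t` with a term `t` not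
containing `v_i`. -/
inductive IsD0 : Fm → Prop
  | eq (s t : Tm) : IsD0 (.eq s t)
  | lt (s t : Tm) : IsD0 (.lt s t)
  | neg {φ : Fm} : IsD0 φ → IsD0 (.neg φ)
  | and {φ ψ : Fm} : IsD0 φ → IsD0 ψ → IsD0 (.and φ ψ)
  | bex {i : ℕ} {t : Tm} {φ : Fm} : i ∉ t.vars → IsD0 φ → IsD0 (.bex i t φ)
  | ball {i : ℕ} {t : Tm} {φ : Fm} : i ∉ t.vars → IsD0 φ → IsD0 (.ball i t φ)

/-- `IsS true n φ`: `φ` is a `Σ_n`-formula; `IsS false n φ`: `φ` is a `Π_n`-formula. The
`Σ_{n+1}`-formulas are the `Π_n`-formulas preceded by a (possibly empty) block of existential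
quantifiers, and dually. -/
inductive IsS : Bool → ℕ → Fm → Prop
  | base {b : Bool} {φ : Fm} : IsD0 φ → IsS b 0 φ
  | up {b : Bool} {n : ℕ} {φ : Fm} : IsS (!b) n φ → IsS b (n + 1) φ
  | ex {n i : ℕ} {φ : Fm} : IsS true (n + 1) φ → IsS true (n + 1) (.ex i φ)
  | all {n i : ℕ} {φ : Fm} : IsS false (n + 1) φ → IsS false (n + 1) (.all i φ)

/-- Quantifier-free formulas. -/
inductive IsQF : Fm → Prop
  | eq (s t : Tm) : IsQF (.eq s t)
  | lt (s t : Tm) : IsQF (.lt s t)
  | neg {φ : Fm} : IsQF φ → IsQF (.neg φ)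
  | and {φ ψ : Fm} : IsQF φ → IsQF ψ → IsQF (.and φ ψ)

/-- Existential formulas: quantifier-free formulas preceded by existential quantifiers. -/
inductive IsEx : Fm → Prop
  | qf {φ : Fm} : IsQF φ → IsEx φ
  | ex {i : ℕ} {φ : Fm} : IsEx φ → IsEx (.ex i φ)

/-- `S` is a model of the set `Γ` of formulas. -/
def Models {M : Type} (S : Str M) (Γ : Set Fm) : Prop := ∀ φ ∈ Γ, ∀ e : ℕ → M, φ.Sat S e

/-- The deductive closure of `Γ`: all sentences that hold in all models of `Γ`. (By the
completeness theorem these are the sentences provable from `Γ`; the language is countable, so that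
the universes may be taken in `Type`.) -/
def Cn (Γ : Set Fm) : Set Fm :=
  {φ | Sentence φ ∧ ∀ (M : Type) (S : Str M), Models S Γ → ∀ e : ℕ → M, φ.Sat S e}

/-- Theories: deductively closed sets of sentences. -/
def IsTheory (T : Set Fm) : Prop := (∀ φ ∈ T, Sentence φ) ∧ Cn T ⊆ T

/-- consistency of a deductively closed set -/
def Consistent (T : Set Fm) : Prop := ∀ φ, ¬ (φ ∈ T ∧ Fm.neg φ ∈ T)

/-- completeness -/
def IsComplete (T : Set Fm) : Prop := ∀ φ, Sentence φ → φ ∈ T ∨ Fm.neg φ ∈ T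

/-- `T` is of restricted complexity: for some `n` it is axiomatized by a set of
`Σ_n`-sentences. -/
def Restricted (T : Set Fm) : Prop :=
  ∃ (n : ℕ) (A : Set Fm), (∀ φ ∈ A, Sentence φ ∧ IsS true n φ) ∧ Cn A = T

/-! ### Robinson arithmetic -/

/-- the variable `v_i` as a term -/
abbrev v (i : ℕ) : Tm := .var i

/-- the successor `t + 1` -/
abbrev suc (t : Tm) : Tm := .add t .one

/-- The axioms of Robinson arithmetic without the axiom for the order. -/
def Qbase : Set Fm :=
  { .eq (suc .zero) .one,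
    .all 0 (.neg (.eq (suc (v 0)) .zero)),
    .all 0 (.all 1 (Fm.imp (.eq (suc (v 0)) (suc (v 1))) (.eq (v 0) (v 1)))),
    .all 0 (Fm.imp (.neg (.eq (v 0) .zero)) (.ex 1 (.eq (v 0) (suc (v 1))))),
    .all 0 (.eq (.add (v 0) .zero) (v 0)),
    .all 0 (.all 1 (.eq (.add (v 0) (suc (v 1))) (suc (.add (v 0) (v 1))))),
    .all 0 (.eq (.mul (v 0) .zero) .zero),
    .all 0 (.all 1 (.eq (.mul (v 0) (suc (v 1))) (.add (.mul (v 0) (v 1)) (v 0)))) }

/-- `∀ x ∀ y (x < y ↔ ∃ z (z + 1) + x = y)` -/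
def ltLeft : Fm := .all 0 (.all 1 (Fm.iff (.lt (v 0) (v 1)) (.ex 2 (.eq (.add (suc (v 2)) (v 0)) (v 1)))))

/-- `∀ x ∀ y (x < y ↔ ∃ z x + (z + 1) = y)` -/
def ltRight : Fm := .all 0 (.all 1 (Fm.iff (.lt (v 0) (v 1)) (.ex 2 (.eq (.add (v 0) (suc (v 2))) (v 1)))))

/-- Robinson arithmetic; the axiom for the order is one of the two usual ones. -/
def Q (left : Bool) : Set Fm := Qbase ∪ {if left then ltLeft else ltRight}

/-! ### The classes of theories -/

/-- consistent theories containing `Q` -/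
def TQ (left : Bool) : Set (Set Fm) := {T | IsTheory T ∧ Consistent T ∧ Q left ⊆ T}

/-- `T` proves MRDP: every `Σ_1`-formula is `T`-provably equivalent to an existential formula. -/
def Tmrdp (left : Bool) : Set (Set Fm) :=
  {T | T ∈ TQ left ∧ ∀ φ, IsS true 1 φ → ∃ ψ, IsEx ψ ∧
    ∀ (M : Type) (S : Str M), Models S T → ∀ e : ℕ → M, φ.Sat S e ↔ ψ.Sat S e}

/-- the value of the numeral of `k` in the structure `S` -/
def num {M : Type} (S : Str M) : ℕ → M
  | 0 => S.zero
  | k + 1 => S.add (num S k) S.one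

/-- `φ(x, y)`, for a formula in the variables `v_0, v_1` -/
def Sat2 {M : Type} (S : Str M) (φ : Fm) (x y : M) : Prop :=
  φ.Sat S (fun i => if i = 0 then x else y)

/-- `φ(x, y, z)`, for a formula in the variables `v_0, v_1, v_2` -/
def Sat3 {M : Type} (S : Str M) (φ : Fm) (x y z : M) : Prop :=
  φ.Sat S (fun i => if i = 0 then x else if i = 1 then y else z)

/-- Tarski's clauses for (the codes of) the `Δ_0`-formulas hold in `S`. The number `code φ` is the
code of `φ`; `σ(x, y)` is read as: the formula with code `x` is true under the assignment `y`, and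
`ν(x, y, a)` is read as: the assignment `y` gives the value `a` to the variable number `x`. The
formulas and the variables are only the standard ones. -/
structure TarskiClauses {M : Type} (S : Str M) (code : Fm → ℕ) (σ ν : Fm) : Prop where
  /-- the values of the variables under an assignment are unique -/
  unique : ∀ (i : ℕ) (y a b : M), Sat3 S ν (num S i) y a → Sat3 S ν (num S i) y b → a = b
  /-- finitely many variables can be given arbitrary values -/
  exists_assignment : ∀ (F : Finset ℕ) (a : ℕ → M), ∃ y, ∀ i ∈ F, Sat3 S ν (num S i) y (a i)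
  /-- atomic formulas -/
  eq : ∀ (s t : Tm) (y : M) (a : ℕ → M),
    (∀ i ∈ (Fm.eq s t).free, Sat3 S ν (num S i) y (a i)) →
    (Sat2 S σ (num S (code (.eq s t))) y ↔ s.val S a = t.val S a)
  /-- atomic formulas -/
  lt : ∀ (s t : Tm) (y : M) (a : ℕ → M),
    (∀ i ∈ (Fm.lt s t).free, Sat3 S ν (num S i) y (a i)) →
    (Sat2 S σ (num S (code (.lt s t))) y ↔ S.lt (s.val S a) (t.val S a))
  /-- negation -/
  neg : ∀ (φ : Fm) (y : M) (a : ℕ → M), IsD0 φ →
    (∀ i ∈ φ.free, Sat3 S ν (num S i) y (a i)) →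
    (Sat2 S σ (num S (code (.neg φ))) y ↔ ¬ Sat2 S σ (num S (code φ)) y)
  /-- conjunction -/
  and : ∀ (φ ψ : Fm) (y : M) (a : ℕ → M), IsD0 φ → IsD0 ψ →
    (∀ i ∈ (Fm.and φ ψ).free, Sat3 S ν (num S i) y (a i)) →
    (Sat2 S σ (num S (code (.and φ ψ))) y ↔
      Sat2 S σ (num S (code φ)) y ∧ Sat2 S σ (num S (code ψ)) y)
  /-- bounded existential quantifier: for some `b` below the value of the bound, the formula is
  true under an assignment `y'` changed at `v_i` to `b` -/
  bex : ∀ (i : ℕ) (t : Tm) (φ : Fm) (y : M) (a : ℕ → M), i ∉ t.vars → IsD0 φ →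
    (∀ j ∈ (Fm.bex i t φ).free, Sat3 S ν (num S j) y (a j)) →
    (Sat2 S σ (num S (code (.bex i t φ))) y ↔ ∃ b, S.lt b (t.val S a) ∧
      ∃ y', (∀ j ∈ φ.free, Sat3 S ν (num S j) y' (Function.update a i b j)) ∧
        Sat2 S σ (num S (code φ)) y')
  /-- bounded universal quantifier -/
  ball : ∀ (i : ℕ) (t : Tm) (φ : Fm) (y : M) (a : ℕ → M), i ∉ t.vars → IsD0 φ →
    (∀ j ∈ (Fm.ball i t φ).free, Sat3 S ν (num S j) y (a j)) →
    (Sat2 S σ (num S (code (.ball i t φ))) y ↔ ∀ b, S.lt b (t.val S a) →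
      ∀ y', (∀ j ∈ φ.free, Sat3 S ν (num S j) y' (Function.update a i b j)) →
        Sat2 S σ (num S (code φ)) y')

/-- `T` supports a definable truth predicate for `Δ_0`-formulas: for some numbering of the formulas
and some formulas `σ`, `ν` it proves Tarski's clauses (they hold in all models of `T`). -/
def Ttruth (left : Bool) : Set (Set Fm) :=
  {T | T ∈ TQ left ∧ ∃ (code : Fm → ℕ) (σ ν : Fm), σ.free ⊆ {0, 1} ∧ ν.free ⊆ {0, 1, 2} ∧
    ∀ (M : Type) (S : Str M), Models S T → TarskiClauses S code σ ν}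

/-- the standard model -/
def stdStr : Str ℕ := ⟨0, 1, (· + ·), (· * ·), (· < ·)⟩

/-- isomorphism of structures -/
def Iso {M N : Type} (S : Str M) (R : Str N) : Prop :=
  ∃ f : M → N, Function.Bijective f ∧ f S.zero = R.zero ∧ f S.one = R.one ∧
    (∀ a b, f (S.add a b) = R.add (f a) (f b)) ∧ (∀ a b, f (S.mul a b) = R.mul (f a) (f b)) ∧
    ∀ a b, S.lt a b ↔ R.lt (f a) (f b)

/-- `T` has no nonstandard recursive model. -/
def Tnrec (left : Bool) : Set (Set Fm) :=
  {T | T ∈ TQ left ∧ ¬ ∃ S : Str ℕ, Models S T ∧ Computable₂ S.add ∧ Computable₂ S.mul ∧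
    ComputablePred (fun p : ℕ × ℕ => S.lt p.1 p.2) ∧ ¬ Iso S stdStr}

/-- No completion of `T` is of restricted complexity. -/
def Tnrestr (left : Bool) : Set (Set Fm) :=
  {T | T ∈ TQ left ∧ ∀ T' : Set Fm, T ⊆ T' → IsTheory T' → Consistent T' → IsComplete T' →
    ¬ Restricted T'}

end Pool.Agent.R601.QT
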