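import Pool.Agent.R601.QT.Pres

set_option autoImplicit false

namespace Pool.Agent.R601.QT

open Function Classical

/-- the element `{w}` -/
def sg {V : Type} (w : V) : Mo V := .fs {w} (Finset.singleton_nonempty w)

theorem sg_inj {V : Type} {u w : V} : sg u = sg w ↔ u = w := by
  simp [sg]

/-- `v_i` is a set -/
def fD (i : ℕ) : Fm := .eq (suc (v i)) (v i)

/-- `v_i` is a singleton -/
def fSing (i : ℕ) : Fm :=
  .and (fD i) (Fm.ball (i + 1) (v i) (Fm.imp (fD (i + 1)) (.eq (v (i + 1)) (v i))))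

/-- the product of `v_i` and `v_j` is not `v_i` -/
def fE (i j : ℕ) : Fm := .neg (.eq (.mul (v i) (v j)) (v i))

def fEx (i : ℕ) (φ : Fm) : Fm := .ex i (.and (fSing i) φ)
def fAll (i : ℕ) (φ : Fm) : Fm := .all i (Fm.imp (fSing i) φ)

def fLeaf (i : ℕ) : Fm :=
  fAll (i + 1) (fAll (i + 2)
    (Fm.imp (.and (fE i (i + 1)) (fE i (i + 2))) (.eq (v (i + 1)) (v (i + 2)))))

/-- `v_i` has colour `c` and rank `r` -/
def fT : Bool → ℕ → ℕ → Fm
  | true, 0, i => .and (fLeaf i) (fEx (i + 1) (fE i (i + 1)))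
  | false, 0, i => .and (fLeaf i) (.neg (fEx (i + 1) (fE i (i + 1))))
  | true, r + 1, i => .and (.neg (fLeaf i)) (fEx (i + 1) (.and (fE i (i + 1)) (fT false r (i + 1))))
  | false, r + 1, i =>
      .and (.neg (fLeaf i)) (fAll (i + 1) (Fm.imp (fE i (i + 1)) (fT true r (i + 1))))

/-- some root has rank `m` and colour `false` -/
def fRoot (m : ℕ) : Fm := fEx 0 (.and (.neg (fEx 1 (fE 1 0))) (fT false m 0))

theorem fD_sat {V : Type} (R : V → V → Prop) (e : ℕ → Mo V) (i : ℕ) :
    (fD i).Sat (str R) e ↔ ∃ s hs, e i = .fs s hs := by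
  simp only [fD, sat_eq, Tm.val, str_add, str_one]
  rcases e i with n | ⟨s, hs⟩
  · simp [moAdd]
  · simp only [moAdd, true_iff]
    exact ⟨s, hs, rfl⟩

theorem fSing_sat {V : Type} (R : V → V → Prop) (e : ℕ → Mo V) (i : ℕ) :
    (fSing i).Sat (str R) e ↔ ∃ w, e i = sg w := by
  simp only [fSing, sat_and, sat_ball, sat_imp, fD_sat, update_self, sat_eq, Tm.val, str_lt,
    update_of_ne (show i ≠ i + 1 by omega)]
  constructor
  · rintro ⟨⟨s, hs, h1⟩, h2⟩
    obtain ⟨w, hw⟩ := hs
    have := h2 (sg w) (by rw [h1]; simpa [moLt, sg] using hw)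
      ⟨{w}, Finset.singleton_nonempty w, rfl⟩
    exact ⟨w, this.symm⟩
  · rintro ⟨w, hw⟩
    refine ⟨⟨_, _, hw⟩, ?_⟩
    rintro a h1 ⟨s, hs, rfl⟩
    rw [hw] at h1 ⊢
    simp only [moLt, sg] at h1 ⊢
    congr 1
    rcases Finset.subset_singleton_iff.1 h1 with h | h
    · exact absurd h hs.ne_empty
    · exact h

theorem fEx_sat {V : Type} (R : V → V → Prop) (e : ℕ → Mo V) (i : ℕ) (φ : Fm) :
    (fEx i φ).Sat (str R) e ↔ ∃ w, φ.Sat (str R) (update e i (sg w)) := by
  simp only [fEx, sat_ex, sat_and, fSing_sat, update_self]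
  constructor
  · rintro ⟨a, ⟨w, rfl⟩, h⟩; exact ⟨w, h⟩
  · rintro ⟨w, h⟩; exact ⟨_, ⟨w, rfl⟩, h⟩

theorem fAll_sat {V : Type} (R : V → V → Prop) (e : ℕ → Mo V) (i : ℕ) (φ : Fm) :
    (fAll i φ).Sat (str R) e ↔ ∀ w, φ.Sat (str R) (update e i (sg w)) := by
  simp only [fAll, sat_all, sat_imp, fSing_sat, update_self]
  constructor
  · intro h w; exact h _ ⟨w, rfl⟩
  · rintro h a ⟨w, rfl⟩; exact h w

theorem isChild_ne {u w : Nd} (h : IsChild u w) : w ≠ u := by
  obtain ⟨k, r, a, l, rfl, rfl⟩ := h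
  intro h
  simp at h

theorem rel_ne {ρ : ℕ → ℕ → Bool} {u w : Nd} (h : Rel ρ u w) : w ≠ u := by
  rcases h with h | ⟨h, _⟩
  · exact isChild_ne h
  · exact (isChild_ne h).symm

theorem fE_sat (ρ : ℕ → ℕ → Bool) (e : ℕ → Mo Nd) {i j : ℕ} {u w : Nd} (hi : e i = sg u)
    (hj : e j = sg w) : (fE i j).Sat (str (Rel ρ)) e ↔ Rel ρ u w := by
  simp only [fE, sat_neg, sat_eq, Tm.val, str_mul, hi, hj]
  simp only [sg, moMul, Mo.fs.injEq]
  constructor
  · intro h
    by_contra hR
    apply h
    ext x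
    rw [mem_mulSet]
    simp only [Finset.mem_singleton]
    constructor
    · rintro (h1 | ⟨h1, v', h2, h3⟩)
      · exact h1
      · rw [h1, h2] at h3; exact absurd h3 hR
    · exact Or.inl
  · intro h h'
    have : w ∈ mulSet (Rel ρ) {u} {w} := mem_mulSet.2 (Or.inr ⟨by simp, u, by simp, h⟩)
    rw [h', Finset.mem_singleton] at this
    exact rel_ne h this

theorem leaf_iff (ρ : ℕ → ℕ → Bool) (u : Nd) :
    (∀ w w', Rel ρ u w ∧ Rel ρ u w' → w = w') ↔ u.2.1 = 0 := by
  obtain ⟨k, r, l⟩ := u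
  constructor
  · intro h
    by_contra h0
    obtain ⟨r, rfl⟩ : ∃ r', r = r' + 1 := ⟨r - 1, by simp only at h0; omega⟩
    have := h (k, r, 0 :: l) (k, r, 1 :: l) ⟨Or.inl ⟨k, r, 0, l, rfl, rfl⟩,
      Or.inl ⟨k, r, 1, l, rfl, rfl⟩⟩
    simp at this
  · intro h0 w w' ⟨h1, h2⟩
    simp only at h0
    subst h0
    have key : ∀ x, Rel ρ (k, 0, l) x → IsChild x (k, 0, l) := by
      rintro x (hx | ⟨hx, _⟩)
      · obtain ⟨_, _, _, _, hx, _⟩ := hx
        simp at hx
      · exact hx
    obtain ⟨k1, r1, a1, l1, rfl, h3⟩ := key w h1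
    obtain ⟨k2, r2, a2, l2, rfl, h4⟩ := key w' h2
    simp only [Prod.mk.injEq] at h3 h4
    obtain ⟨rfl, rfl, rfl⟩ := h3
    obtain ⟨rfl, rfl, h5⟩ := h4
    simp only [List.cons.injEq] at h5
    rw [h5.2]

theorem fLeaf_sat (ρ : ℕ → ℕ → Bool) (e : ℕ → Mo Nd) {i : ℕ} {u : Nd} (hi : e i = sg u) :
    (fLeaf i).Sat (str (Rel ρ)) e ↔ u.2.1 = 0 := by
  rw [← leaf_iff ρ u]
  simp only [fLeaf, fAll_sat]
  apply forall_congr'; intro w
  apply forall_congr'; intro w'
  rw [sat_imp, sat_and, fE_sat ρ _ (u := u) (w := w), fE_sat ρ _ (u := u) (w := w')]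
  · simp only [sat_eq, Tm.val, update_self, update_of_ne (show i + 1 ≠ i + 2 by omega), sg_inj]
  · simp [hi]
  · simp
  · simp [hi]
  · simp

theorem rel_of_rank {ρ : ℕ → ℕ → Bool} {u w : Nd} (hu : u.2.1 ≠ 0) :
    Rel ρ u w ↔ IsChild u w := by
  constructor
  · rintro (h | ⟨_, h, _⟩)
    · exact h
    · exact absurd h hu
  · exact Or.inl

theorem fT_sat (ρ : ℕ → ℕ → Bool) (r : ℕ) : ∀ (c : Bool) (i : ℕ) (e : ℕ → Mo Nd) (u : Nd),
    e i = sg u → (1 ≤ r ∨ u.2.2 ≠ []) →
    ((fT c r i).Sat (str (Rel ρ)) e ↔ u.2.1 = r ∧ col ρ u = c) := by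
  induction r with
  | zero =>
      intro c i e u hi hu
      have hu' : u.2.2 ≠ [] := by
        rcases hu with hu | hu
        · omega
        · exact hu
      have key : u.2.1 = 0 → ((fEx (i + 1) (fE i (i + 1))).Sat (str (Rel ρ)) e ↔
          col ρ u = true) := by
        intro h0
        rw [fEx_sat]
        constructor
        · rintro ⟨w, hw⟩
          rw [fE_sat ρ _ (u := u) (w := w) (by simp [hi]) (by simp)] at hw
          rcases hw with hw | ⟨_, _, hw⟩
          · obtain ⟨_, _, _, _, hx, _⟩ := hw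
            rw [hx] at h0
            simp at h0
          · exact hw
        · intro hc
          obtain ⟨k, r, l⟩ := u
          rcases l with _ | ⟨a, l⟩
          · simp at hu'
          · refine ⟨(k, r + 1, l), ?_⟩
            rw [fE_sat ρ _ (u := (k, r, a :: l)) (w := (k, r + 1, l)) (by simp [hi]) (by simp)]
            exact Or.inr ⟨⟨k, r, a, l, rfl, rfl⟩, h0, hc⟩
      cases c
      · simp only [fT, sat_and, sat_neg, fLeaf_sat ρ e hi]
        apply and_congr_right
        intro h0
        rw [key h0]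
        simp
      · simp only [fT, sat_and, fLeaf_sat ρ e hi]
        apply and_congr_right
        intro h0
        rw [key h0]
  | succ r ih =>
      intro c i e u hi _
      have ihc : ∀ (c : Bool) (w : Nd), IsChild u w →
          ((fT c r (i + 1)).Sat (str (Rel ρ)) (update e (i + 1) (sg w)) ↔
            w.2.1 = r ∧ col ρ w = c) := by
        intro c w hw
        apply ih c (i + 1) _ w (by simp)
        right
        obtain ⟨_, _, _, _, _, rfl⟩ := hw
        simp
      cases c
      · simp only [fT, sat_and, sat_neg, fLeaf_sat ρ e hi, fAll_sat, sat_imp]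
        constructor
        · rintro ⟨h0, h1⟩
          obtain ⟨k, r', l⟩ := u
          obtain ⟨r', rfl⟩ : ∃ r'', r' = r'' + 1 := ⟨r' - 1, by simp only at h0; omega⟩
          have hch : IsChild (k, r' + 1, l) (k, r', 1 :: l) := ⟨k, r', 1, l, rfl, rfl⟩
          have h2 := h1 (k, r', 1 :: l) ((fE_sat ρ _ (by simp [hi]) (by simp)).2
            ((rel_of_rank (by simp)).2 hch))
          rw [ihc true _ hch] at h2
          simp only at h2
          refine ⟨by simp [h2.1], ?_⟩
          have h3 := h2.2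
          rw [col_cons] at h3
          by_contra hcc
          simp only [Bool.not_eq_false] at hcc
          rw [hcc] at h3
          simp at h3
        · rintro ⟨h0, h1⟩
          refine ⟨by omega, fun w hw => ?_⟩
          rw [fE_sat ρ _ (u := u) (w := w) (by simp [hi]) (by simp), rel_of_rank (by omega)] at hw
          rw [ihc true w hw]
          obtain ⟨k, r', a, l, rfl, rfl⟩ := hw
          simp only [add_left_inj] at h0
          refine ⟨h0, ?_⟩
          rw [col_cons, h1]
          simp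
      · simp only [fT, sat_and, sat_neg, fLeaf_sat ρ e hi, fEx_sat]
        constructor
        · rintro ⟨h0, w, hw, h1⟩
          rw [fE_sat ρ _ (u := u) (w := w) (by simp [hi]) (by simp), rel_of_rank h0] at hw
          rw [ihc false w hw] at h1
          obtain ⟨k, r', a, l, rfl, rfl⟩ := hw
          simp only at h1
          refine ⟨by simp [h1.1], ?_⟩
          have h3 := h1.2
          rw [col_cons] at h3
          by_contra hcc
          simp only [Bool.not_eq_true] at hcc
          rw [hcc] at h3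
          simp at h3
        · rintro ⟨h0, h1⟩
          refine ⟨by omega, ?_⟩
          obtain ⟨k, r', l⟩ := u
          simp only at h0
          subst h0
          have hch : IsChild (k, r + 1, l) (k, r, 1 :: l) := ⟨k, r, 1, l, rfl, rfl⟩
          refine ⟨(k, r, 1 :: l), (fE_sat ρ _ (by simp [hi]) (by simp)).2
            ((rel_of_rank (by simp)).2 hch), ?_⟩
          rw [ihc false _ hch]
          refine ⟨rfl, ?_⟩
          rw [col_cons, h1]
          simp

theorem fRoot_sat (ρ : ℕ → ℕ → Bool) {m : ℕ} (hm : 2 ≤ m) (e : ℕ → Mo Nd) :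
    (fRoot m).Sat (str (Rel ρ)) e ↔ ∃ k, ρ k m = false := by
  simp only [fRoot, fEx_sat, sat_and, sat_neg]
  constructor
  · rintro ⟨u, h1, h2⟩
    rw [fT_sat ρ m false 0 _ u (by simp) (Or.inl (by omega))] at h2
    obtain ⟨k, r, l⟩ := u
    obtain ⟨h2, h3⟩ := h2
    simp only at h2
    subst h2
    rcases l with _ | ⟨a, l⟩
    · rw [col_root] at h3
      exact ⟨k, h3⟩
    · exfalso
      apply h1
      refine ⟨(k, r + 1, l), ?_⟩
      rw [fE_sat ρ _ (u := (k, r + 1, l)) (w := (k, r, a :: l)) (by simp) (by simp)]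
      exact Or.inl ⟨k, r, a, l, rfl, rfl⟩
  · rintro ⟨k, hk⟩
    refine ⟨(k, m, []), ?_, ?_⟩
    · rintro ⟨w, hw⟩
      rw [fE_sat ρ _ (u := w) (w := (k, m, [])) (by simp) (by simp)] at hw
      rcases hw with hw | ⟨hw, h0, _⟩
      · obtain ⟨_, _, _, _, _, hw⟩ := hw
        simp at hw
      · obtain ⟨k1, r1, a1, l1, h3, rfl⟩ := hw
        simp only [Prod.mk.injEq] at h3
        simp only at h0
        omega
    · rw [fT_sat ρ m false 0 _ (k, m, []) (by simp) (Or.inl (by omega)), col_root]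
      exact ⟨rfl, hk⟩

theorem fSing_free (i : ℕ) : (fSing i).free = {i} := by
  have h : i ≠ i + 1 := by omega
  ext j
  simp only [fSing, fD, Fm.ball, Fm.imp, Fm.free, Tm.vars, suc, v, Finset.mem_union,
    Finset.mem_erase, Finset.mem_singleton, Finset.notMem_empty]
  constructor
  · intro h'; tauto
  · intro h'; tauto

theorem fLeaf_free (i : ℕ) : (fLeaf i).free = {i} := by
  ext j
  simp only [fLeaf, fAll, fE, Fm.imp, Fm.free, Tm.vars, v, fSing_free, Finset.mem_union,
    Finset.mem_erase, Finset.mem_singleton]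
  constructor
  · intro h'; omega
  · intro h'; omega

theorem fT_free (r : ℕ) : ∀ (c : Bool) (i : ℕ), (fT c r i).free = {i} := by
  induction r with
  | zero =>
      intro c i
      cases c <;>
      · ext j
        simp only [fT, fEx, fE, Fm.free, Tm.vars, v, fSing_free, fLeaf_free, Finset.mem_union,
          Finset.mem_erase, Finset.mem_singleton]
        constructor
        · intro h'; omega
        · intro h'; omega
  | succ r ih =>
      intro c i
      cases c <;>
      · ext j
        simp only [fT, fEx, fAll, fE, Fm.imp, Fm.free, Tm.vars, v, fSing_free, fLeaf_free, ih,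
          Finset.mem_union, Finset.mem_erase, Finset.mem_singleton]
        constructor
        · intro h'; omega
        · intro h'; omega

theorem fRoot_sentence (m : ℕ) : Sentence (fRoot m) := by
  unfold Sentence
  ext j
  simp only [fRoot, fEx, fE, Fm.free, Tm.vars, v, fSing_free, fT_free, Finset.mem_union,
    Finset.mem_erase, Finset.mem_singleton, Finset.notMem_empty]
  constructor
  · intro h'; omega
  · intro h'; exact h'.elim

/-- `Th (M(rho))` has no completion of restricted complexity. -/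
theorem not_restricted : ¬ Restricted (Th (str (Rel rho))) := by
  rintro ⟨n, A, hA, hT⟩
  set m := n + 2 with hm
  have hmod : Models (str (Rel (rhoM m))) A := by
    intro φ hφ e
    obtain ⟨h1, h2⟩ := hA φ hφ
    have h3 : φ ∈ Th (str (Rel rho)) := by
      rw [← hT]
      exact ⟨h1, fun M S hS e => hS φ hφ e⟩
    have h4 := sigma_pres (n := n) (m := m) (by omega) (by omega) h2 (h3.2 _)
    exact (h1.sat_iff _ _ _).1 h4
  have h5 : (Fm.neg (fRoot m)) ∈ Th (str (Rel rho)) := by
    refine ⟨fRoot_sentence m, fun e => ?_⟩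
    rw [sat_neg, fRoot_sat rho (by omega)]
    simp [rho]
  rw [← hT] at h5
  have h6 := h5.2 _ _ hmod (fun _ => .nat 0)
  rw [sat_neg, fRoot_sat _ (by omega)] at h6
  exact h6 ⟨0, by simp [rhoM]⟩

end Pool.Agent.R601.QT
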