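import Pool.Agent.R601.QT.Model

set_option autoImplicit false

/-!
The forest: back-and-forth with matchings.
-/

namespace Pool.Agent.R601.QT

open Function Classical

/-- The nodes `(k, r, l)` of the forest; `r` is the rank of the node, and the parent of
`(k, r, a :: l)` is `(k, r + 1, l)`. -/
abbrev Nd : Type := ℕ × ℕ × List ℕ

/-- the colour of a node at the end of a path `l`, read from the last entry, starting with the
colour `c`: all children of nodes of colour `false` have colour `true`, the children of nodes of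
colour `true` have both colours -/
def colL (c : Bool) : List ℕ → Bool
  | [] => c
  | a :: l => if colL c l then decide (a % 2 = 0) else true

/-- the colour of a node, for the colours `ρ k R` of the roots `(k, R, [])` -/
def col (ρ : ℕ → ℕ → Bool) (v : Nd) : Bool := colL (ρ v.1 (v.2.1 + v.2.2.length)) v.2.2

theorem col_root (ρ : ℕ → ℕ → Bool) (k r : ℕ) : col ρ (k, r, []) = ρ k r := by
  simp [col, colL]

theorem col_cons (ρ : ℕ → ℕ → Bool) (k r a : ℕ) (l : List ℕ) :
    col ρ (k, r, a :: l) = if col ρ (k, r + 1, l) then decide (a % 2 = 0) else true := by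
  have h : r + (l.length + 1) = r + 1 + l.length := by omega
  show colL (ρ k (r + (l.length + 1))) (a :: l) = _
  rw [h]
  rfl

/-- `w` is a child of `v` -/
def IsChild (v w : Nd) : Prop := ∃ k r a l, v = (k, r + 1, l) ∧ w = (k, r, a :: l)

/-- the relation of the forest -/
def Rel (ρ : ℕ → ℕ → Bool) (v w : Nd) : Prop :=
  IsChild v w ∨ (IsChild w v ∧ v.2.1 = 0 ∧ col ρ v = true)

/-- Matchings: finite partial isomorphisms of the forest, closed under parents. -/
structure Match (P : Finset (Nd × Nd)) : Prop where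
  inj : ∀ p ∈ P, ∀ q ∈ P, (p.1 = q.1 ↔ p.2 = q.2)
  rank : ∀ p ∈ P, p.1.2.1 = p.2.2.1
  root : ∀ p ∈ P, (p.1.2.2 = [] ↔ p.2.2.2 = [])
  par : ∀ k r a l k' r' a' l', ((k, r, a :: l), (k', r', a' :: l')) ∈ P →
    (((k, r + 1, l), (k', r' + 1, l')) : Nd × Nd) ∈ P

/-- the admissible differences of colours -/
def cond (n r : ℕ) (c c' : Bool) : Prop :=
  c = c' ∨ (c = false ∧ c' = true ∧ n ≤ r ∧ 1 ≤ r) ∨ (c = true ∧ c' = false ∧ n + 1 ≤ r)

/-- the back-and-forth relation -/
structure BF (n : ℕ) (ρ ρ' : ℕ → ℕ → Bool) (P : Finset (Nd × Nd)) : Prop extends Match P where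
  cond : ∀ p ∈ P, cond n p.1.2.1 (col ρ p.1) (col ρ' p.2)

/-- new roots can be found -/
def Good (n : ℕ) (ρ ρ' : ℕ → ℕ → Bool) : Prop :=
  ∀ (κ R : ℕ) (F : Finset ℕ), ∃ κ' ∉ F, cond n R (ρ κ R) (ρ' κ' R)

/-- the inverse of a matching -/
def sw {V : Type} (P : Finset (V × V)) : Finset (V × V) := P.map (Equiv.prodComm V V).toEmbedding

theorem mem_swap {V : Type} {P : Finset (V × V)} {v w : V} : (v, w) ∈ sw P ↔ (w, v) ∈ P := by
  unfold sw
  rw [Finset.mem_map]
  constructor
  · rintro ⟨p, hp, h⟩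
    have : p = (w, v) := by
      rw [← Prod.swap_swap p]
      exact congrArg Prod.swap h
    exact this ▸ hp
  · intro h
    exact ⟨(w, v), h, rfl⟩

theorem Match.swap {P : Finset (Nd × Nd)} (h : Match P) : Match (sw P) := by
  constructor
  · rintro ⟨a, b⟩ hp ⟨c, d⟩ hq
    rw [mem_swap] at hp hq
    exact (h.inj _ hp _ hq).symm
  · rintro ⟨a, b⟩ hp
    rw [mem_swap] at hp
    exact (h.rank _ hp).symm
  · rintro ⟨a, b⟩ hp
    rw [mem_swap] at hp
    exact (h.root _ hp).symm
  · intro k r a l k' r' a' l' hp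
    rw [mem_swap] at hp ⊢
    exact h.par _ _ _ _ _ _ _ _ hp

theorem BF.swap {n : ℕ} {ρ ρ' : ℕ → ℕ → Bool} {P : Finset (Nd × Nd)} (h : BF (n + 1) ρ ρ' P) :
    BF n ρ' ρ (sw P) := by
  refine ⟨h.toMatch.swap, ?_⟩
  rintro ⟨a, b⟩ hp
  rw [mem_swap] at hp
  have h1 := h.cond _ hp
  have h2 := h.rank _ hp
  simp only at h1 h2 ⊢
  rw [← h2]
  rcases h1 with h1 | ⟨h1, h3, h4, h5⟩ | ⟨h1, h3, h4⟩
  · exact Or.inl h1.symm
  · exact Or.inr (Or.inr ⟨h3, h1, h4⟩)
  · exact Or.inr (Or.inl ⟨h3, h1, by omega, by omega⟩)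

theorem Match.child_iff {P : Finset (Nd × Nd)} (h : Match P) {v w v' w' : Nd}
    (hv : (v, v') ∈ P) (hw : (w, w') ∈ P) (hc : IsChild v w) : IsChild v' w' := by
  obtain ⟨k, r, a, l, rfl, rfl⟩ := hc
  obtain ⟨k', r', l'⟩ := w'
  have h1 := h.rank _ hw
  have h2 := h.root _ hw
  simp only at h1 h2
  subst h1
  rcases l' with _ | ⟨a', l'⟩
  · simp at h2
  · have h3 := h.par _ _ _ _ _ _ _ _ hw
    have h4 := (h.inj _ hv _ h3).1 rfl
    simp only at h4
    exact ⟨k', r, a', l', h4, rfl⟩

theorem BF.rel {n : ℕ} {ρ ρ' : ℕ → ℕ → Bool} {P : Finset (Nd × Nd)} (h : BF n ρ ρ' P)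
    {v w v' w' : Nd} (hv : (v, v') ∈ P) (hw : (w, w') ∈ P) : Rel ρ v w ↔ Rel ρ' v' w' := by
  have hs := h.toMatch.swap
  have c1 : IsChild v w ↔ IsChild v' w' :=
    ⟨h.toMatch.child_iff hv hw, hs.child_iff (mem_swap.2 hv) (mem_swap.2 hw)⟩
  have c2 : IsChild w v ↔ IsChild w' v' :=
    ⟨h.toMatch.child_iff hw hv, hs.child_iff (mem_swap.2 hw) (mem_swap.2 hv)⟩
  have hr := h.rank _ hv
  have hc := h.cond _ hv
  simp only at hr hc
  unfold Rel
  rw [c1, c2, ← hr]
  have : v.2.1 = 0 → col ρ v = col ρ' v' := by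
    intro h0
    rcases hc with hc | ⟨_, _, _, h5⟩ | ⟨_, _, h5⟩
    · exact hc
    · omega
    · omega
  constructor
  · rintro (h1 | ⟨h1, h2, h3⟩)
    · exact Or.inl h1
    · exact Or.inr ⟨h1, h2, by rw [← this h2, h3]⟩
  · rintro (h1 | ⟨h1, h2, h3⟩)
    · exact Or.inl h1
    · exact Or.inr ⟨h1, h2, by rw [this h2, h3]⟩

theorem BF.ext {n : ℕ} {ρ ρ' : ℕ → ℕ → Bool} (hg : Good (n + 1) ρ ρ') (l : List ℕ) :
    ∀ (k r : ℕ) (P : Finset (Nd × Nd)), BF (n + 1) ρ ρ' P →
      ∃ P', P ⊆ P' ∧ BF (n + 1) ρ ρ' P' ∧ ∃ w, ((k, r, l), w) ∈ P' := by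
  induction l with
  | nil =>
      intro k r P h
      by_cases hv : ∃ w, ((k, r, []), w) ∈ P
      · exact ⟨P, subset_rfl, h, hv⟩
      push Not at hv
      obtain ⟨κ', hκ, hc⟩ := hg k r (P.image fun p => p.2.1)
      have hfresh : ∀ q ∈ P, q.2 ≠ (κ', r, []) := by
        intro q hq hq'
        exact hκ (Finset.mem_image.2 ⟨q, hq, by rw [hq']⟩)
      refine ⟨insert ((k, r, []), (κ', r, [])) P, Finset.subset_insert _ _, ⟨⟨?_, ?_, ?_, ?_⟩, ?_⟩,
        _, Finset.mem_insert_self _ _⟩
      · intro p hp q hq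
        rw [Finset.mem_insert] at hp hq
        rcases hp with rfl | hp <;> rcases hq with rfl | hq
        · simp
        · simp only
          constructor
          · intro h1
            exact absurd (h1 ▸ hq : ((k, r, []), q.2) ∈ P) (hv q.2)
          · intro h1; exact absurd h1.symm (hfresh q hq)
        · simp only
          constructor
          · intro h1
            exact absurd (h1 ▸ hp : ((k, r, []), p.2) ∈ P) (hv p.2)
          · intro h1; exact absurd h1 (hfresh p hp)
        · exact h.inj p hp q hq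
      · intro p hp
        rw [Finset.mem_insert] at hp
        rcases hp with rfl | hp
        · rfl
        · exact h.rank p hp
      · intro p hp
        rw [Finset.mem_insert] at hp
        rcases hp with rfl | hp
        · simp
        · exact h.root p hp
      · intro k1 r1 a1 l1 k2 r2 a2 l2 hp
        rw [Finset.mem_insert] at hp ⊢
        rcases hp with hp | hp
        · simp at hp
        · exact Or.inr (h.par _ _ _ _ _ _ _ _ hp)
      · intro p hp
        rw [Finset.mem_insert] at hp
        rcases hp with rfl | hp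
        · simp only [col_root]; exact hc
        · exact h.cond p hp
  | cons a l ih =>
      intro k r P0 h0
      obtain ⟨P, hPP, h, ⟨k1, r1, l1⟩, hw1⟩ := ih k (r + 1) P0 h0
      have hr1 := h.rank _ hw1
      simp only at hr1
      subst hr1
      by_cases hv : ∃ w, ((k, r, a :: l), w) ∈ P
      · exact ⟨P, hPP, h, hv⟩
      push Not at hv
      -- choose the parity of the new label
      have hc := h.cond _ hw1
      simp only at hc
      have hpar : ∃ b : ℕ, ∀ N : ℕ,
          QT.cond (n + 1) r (col ρ (k, r, a :: l)) (col ρ' (k1, r, (2 * N + b) :: l1)) := by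
        simp only [col_cons]
        rcases hc with hc | ⟨h1, h2, h3, h4⟩ | ⟨h1, h2, h3⟩
        · refine ⟨a, fun N => Or.inl ?_⟩
          rw [hc, Nat.mul_add_mod]
        · refine ⟨0, fun N => Or.inl ?_⟩
          rw [h1, h2]
          simp
        · refine ⟨0, fun N => ?_⟩
          rw [h1, h2]
          by_cases ha : a % 2 = 0
          · left; simp [ha]
          · right; left
            refine ⟨by simp [ha], by simp, by omega, by omega⟩
      obtain ⟨b, hb⟩ := hpar
      have hinj : Injective (fun N : ℕ => ((k1, r, (2 * N + b) :: l1) : Nd)) := by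
        intro x y hxy
        simp only [Prod.mk.injEq, List.cons.injEq, and_true, true_and] at hxy
        omega
      obtain ⟨w, ⟨N, rfl⟩, hN⟩ :=
        (Set.infinite_range_of_injective hinj).exists_notMem_finset (P.image Prod.snd)
      have hfresh : ∀ q ∈ P, q.2 ≠ (k1, r, (2 * N + b) :: l1) := by
        intro q hq hq'
        exact hN (Finset.mem_image.2 ⟨q, hq, hq'⟩)
      refine ⟨insert ((k, r, a :: l), (k1, r, (2 * N + b) :: l1)) P,
        hPP.trans (Finset.subset_insert _ _), ⟨⟨?_, ?_, ?_, ?_⟩, ?_⟩,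
        _, Finset.mem_insert_self _ _⟩
      · intro p hp q hq
        rw [Finset.mem_insert] at hp hq
        rcases hp with rfl | hp <;> rcases hq with rfl | hq
        · simp
        · simp only
          constructor
          · intro h1
            exact absurd (h1 ▸ hq : ((k, r, a :: l), q.2) ∈ P) (hv q.2)
          · intro h1; exact absurd h1.symm (hfresh q hq)
        · simp only
          constructor
          · intro h1
            exact absurd (h1 ▸ hp : ((k, r, a :: l), p.2) ∈ P) (hv p.2)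
          · intro h1; exact absurd h1 (hfresh p hp)
        · exact h.inj p hp q hq
      · intro p hp
        rw [Finset.mem_insert] at hp
        rcases hp with rfl | hp
        · rfl
        · exact h.rank p hp
      · intro p hp
        rw [Finset.mem_insert] at hp
        rcases hp with rfl | hp
        · simp
        · exact h.root p hp
      · intro k2 r2 a2 l2 k3 r3 a3 l3 hp
        rw [Finset.mem_insert] at hp ⊢
        right
        rcases hp with hp | hp
        · simp only [Prod.mk.injEq, List.cons.injEq] at hp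
          obtain ⟨⟨rfl, rfl, rfl, rfl⟩, rfl, rfl, rfl, rfl⟩ := hp
          exact hw1
        · exact h.par _ _ _ _ _ _ _ _ hp
      · intro p hp
        rw [Finset.mem_insert] at hp
        rcases hp with rfl | hp
        · exact hb N
        · exact h.cond p hp

theorem BF.ext_finset {n : ℕ} {ρ ρ' : ℕ → ℕ → Bool} (hg : Good (n + 1) ρ ρ') (s : Finset Nd) :
    ∀ (P : Finset (Nd × Nd)), BF (n + 1) ρ ρ' P →
      ∃ P', P ⊆ P' ∧ BF (n + 1) ρ ρ' P' ∧ ∀ v ∈ s, ∃ w, (v, w) ∈ P' := by
  induction s using Finset.induction_on with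
  | empty => intro P h; exact ⟨P, subset_rfl, h, by simp⟩
  | insert v s _ ih =>
      intro P h
      obtain ⟨P1, h1, h2, h3⟩ := ih P h
      obtain ⟨k, r, l⟩ := v
      obtain ⟨P2, h4, h5, w, h6⟩ := BF.ext hg l k r P1 h2
      refine ⟨P2, h1.trans h4, h5, ?_⟩
      intro u hu
      rw [Finset.mem_insert] at hu
      rcases hu with rfl | hu
      · exact ⟨w, h6⟩
      · obtain ⟨w', hw'⟩ := h3 u hu
        exact ⟨w', h4 hw'⟩

end Pool.Agent.R601.QT
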