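import Pool.Agent.R601.QT.Basic

set_option autoImplicit false

namespace Pool.Agent.R601.QT

open Function Classical

/-- The universe: the natural numbers and the nonempty finite subsets of `V`. -/
inductive Mo (V : Type) : Type
  | nat (n : ℕ) : Mo V
  | fs (s : Finset V) (h : s.Nonempty) : Mo V

variable {V : Type}

/-- the product of two finite sets: `s` together with the elements of `t` that are `R`-related to
an element of `s` -/
noncomputable def mulSet (R : V → V → Prop) (s t : Finset V) : Finset V :=
  s ∪ t.filter (fun w => ∃ v ∈ s, R v w)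

theorem mem_mulSet {R : V → V → Prop} {s t : Finset V} {w : V} :
    w ∈ mulSet R s t ↔ w ∈ s ∨ (w ∈ t ∧ ∃ v ∈ s, R v w) := by
  simp [mulSet]

theorem mulSet_nonempty {R : V → V → Prop} {s t : Finset V} (h : s.Nonempty) :
    (mulSet R s t).Nonempty := h.mono (Finset.subset_union_left)

/-- addition -/
noncomputable def moAdd : Mo V → Mo V → Mo V
  | .nat n, .nat m => .nat (n + m)
  | .nat _, .fs t h => .fs t h
  | .fs s h, .nat _ => .fs s h
  | .fs s h, .fs t _ => .fs (s ∪ t) (h.mono Finset.subset_union_left)

/-- multiplication -/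
noncomputable def moMul (R : V → V → Prop) : Mo V → Mo V → Mo V
  | .nat n, .nat m => .nat (n * m)
  | .nat _, .fs t h => .fs t h
  | .fs _ _, .nat 0 => .nat 0
  | .fs s h, .nat (_ + 1) => .fs s h
  | .fs s h, .fs t _ => .fs (mulSet R s t) (mulSet_nonempty h)

/-- order -/
def moLt : Mo V → Mo V → Prop
  | .nat n, .nat m => n < m
  | .nat _, .fs _ _ => True
  | .fs _ _, .nat _ => False
  | .fs s _, .fs t _ => s ⊆ t

/-- The structure `M(V, R)`. -/
noncomputable def str (R : V → V → Prop) : Str (Mo V) := ⟨.nat 0, .nat 1, moAdd, moMul R, moLt⟩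

@[simp] theorem str_zero (R : V → V → Prop) : (str R).zero = .nat 0 := rfl
@[simp] theorem str_one (R : V → V → Prop) : (str R).one = .nat 1 := rfl
@[simp] theorem str_add (R : V → V → Prop) : (str R).add = moAdd := rfl
@[simp] theorem str_mul (R : V → V → Prop) : (str R).mul = moMul R := rfl
@[simp] theorem str_lt (R : V → V → Prop) : (str R).lt = moLt := rfl

theorem models_Q (R : V → V → Prop) (left : Bool) : Q left ⊆ Th (str R) := by
  have hunion : ∀ s : Finset V, s ∪ s = s := fun s => Finset.union_self s
  intro φ hφ
  rcases hφ with hφ | hφ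
  · simp only [Qbase, Set.mem_insert_iff, Set.mem_singleton_iff] at hφ
    rcases hφ with h | h | h | h | h | h | h | h
    · subst h
      refine ⟨by simp [Sentence, Fm.free, Tm.vars], fun e => ?_⟩
      simp [Tm.val, moAdd]
    · subst h
      refine ⟨by simp [Sentence, Fm.free, Tm.vars], fun e a => ?_⟩
      cases a <;> simp [Tm.val, moAdd]
    · subst h
      refine ⟨by simp [Sentence, Fm.imp, Fm.free, Tm.vars]; decide, fun e a b => ?_⟩
      cases a <;> cases b <;> simp [Tm.val, moAdd]
    · subst h
      refine ⟨by simp [Sentence, Fm.imp, Fm.free, Tm.vars]; try decide, fun e a => ?_⟩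
      rw [sat_imp]
      intro h0
      rcases a with n | ⟨s, hs⟩
      · rcases n with _ | n
        · simp [Tm.val] at h0
        · exact ⟨.nat n, by simp [Tm.val, moAdd]⟩
      · exact ⟨.fs s hs, by simp [Tm.val, moAdd]⟩
    · subst h
      refine ⟨by simp [Sentence, Fm.free, Tm.vars], fun e a => ?_⟩
      cases a <;> simp [Tm.val, moAdd]
    · subst h
      refine ⟨by simp [Sentence, Fm.free, Tm.vars]; try decide, fun e a b => ?_⟩
      cases a <;> cases b <;> simp [Tm.val, moAdd]
      omega
    · subst h
      refine ⟨by simp [Sentence, Fm.free, Tm.vars], fun e a => ?_⟩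
      cases a <;> simp [Tm.val, moMul]
    · subst h
      refine ⟨by simp [Sentence, Fm.free, Tm.vars]; try decide, fun e a b => ?_⟩
      rcases a with n | ⟨s, hs⟩ <;> rcases b with m | ⟨t, ht⟩
      · simp [Tm.val, moMul, moAdd]; ring
      · simp [Tm.val, moMul, moAdd]
      · rcases m with _ | m
        · simp [Tm.val, moMul, moAdd]
        · simp [Tm.val, moMul, moAdd, hunion]
      · simp only [sat_eq, Tm.val, str_add, str_mul, str_one]
        simp only [ne_eq, not_false_eq_true, update_of_ne, update_self, zero_ne_one,
          moMul, moAdd, Mo.fs.injEq]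
        ext w
        simp only [Finset.mem_union, mem_mulSet]
        generalize (w ∈ t ∧ ∃ v ∈ s, R v w) = p
        tauto
  · simp only [Set.mem_singleton_iff] at hφ
    have key : ∀ a b : Mo V, moLt a b ↔ ∃ c, moAdd (moAdd c (.nat 1)) a = b := by
      intro a b
      rcases a with n | ⟨s, hs⟩ <;> rcases b with m | ⟨t, ht⟩
      · simp only [moLt]
        constructor
        · intro h
          refine ⟨.nat (m - n - 1), ?_⟩
          simp only [moAdd, Mo.nat.injEq]; omega
        · rintro ⟨c, hc⟩
          rcases c with c | ⟨c, h'⟩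
          · simp only [moAdd, Mo.nat.injEq] at hc; omega
          · simp [moAdd] at hc
      · simp only [moLt, true_iff]
        exact ⟨.fs t ht, by simp [moAdd]⟩
      · simp only [moLt, false_iff]
        rintro ⟨c, hc⟩
        rcases c with c | ⟨c, h'⟩ <;> simp [moAdd] at hc
      · simp only [moLt]
        constructor
        · intro h
          refine ⟨.fs t ht, ?_⟩
          simp only [moAdd, Mo.fs.injEq]
          exact Finset.union_eq_left.2 h
        · rintro ⟨c, hc⟩
          rcases c with c | ⟨c, h'⟩
          · simp only [moAdd, Mo.fs.injEq] at hc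
            rw [hc]
          · simp only [moAdd, Mo.fs.injEq] at hc
            rw [← hc]
            exact Finset.subset_union_right
    have key' : ∀ a b : Mo V, moLt a b ↔ ∃ c, moAdd a (moAdd c (.nat 1)) = b := by
      intro a b
      rw [key]
      have comm : ∀ x y : Mo V, moAdd x y = moAdd y x := by
        intro x y
        rcases x with n | ⟨s, hs⟩ <;> rcases y with m | ⟨t, ht⟩
        · simp [moAdd, add_comm]
        · simp [moAdd]
        · simp [moAdd]
        · simp only [moAdd, Mo.fs.injEq]; exact Finset.union_comm _ _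
      constructor
      · rintro ⟨c, hc⟩; exact ⟨c, by rw [comm, hc]⟩
      · rintro ⟨c, hc⟩; exact ⟨c, by rw [comm, hc]⟩
    cases left
    · simp only [Bool.false_eq_true, if_false] at hφ
      subst hφ
      refine ⟨by simp [Sentence, ltRight, Fm.iff, Fm.imp, Fm.free, Tm.vars]; try decide,
        fun e a b => ?_⟩
      rw [sat_iff]
      simpa [Tm.val] using key' a b
    · simp only [if_true] at hφ
      subst hφ
      refine ⟨by simp [Sentence, ltLeft, Fm.iff, Fm.imp, Fm.free, Tm.vars]; try decide,
        fun e a b => ?_⟩
      rw [sat_iff]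
      simpa [Tm.val] using key a b

end Pool.Agent.R601.QT
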