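import Pool.Agent.R601.QT.Dist

set_option autoImplicit false

namespace Pool.Agent.R601.QT

open Function Classical

/-- embeddings of structures -/
structure IsEmb {M N : Type} (S : Str M) (R : Str N) (f : M → N) : Prop where
  inj : Injective f
  zero : f S.zero = R.zero
  one : f S.one = R.one
  add : ∀ a b, f (S.add a b) = R.add (f a) (f b)
  mul : ∀ a b, f (S.mul a b) = R.mul (f a) (f b)
  lt : ∀ a b, S.lt a b ↔ R.lt (f a) (f b)

section
variable {M N : Type} {S : Str M} {R : Str N} {f : M → N}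

theorem IsEmb.val (h : IsEmb S R f) (e : ℕ → M) : ∀ t : Tm, t.val R (f ∘ e) = f (t.val S e)
  | .var i => rfl
  | .zero => h.zero.symm
  | .one => h.one.symm
  | .add s t => by simp only [Tm.val, h.val e s, h.val e t, h.add]
  | .mul s t => by simp only [Tm.val, h.val e s, h.val e t, h.mul]

theorem comp_update (f : M → N) (e : ℕ → M) (i : ℕ) (a : M) :
    update (f ∘ e) i (f a) = f ∘ update e i a := (Function.comp_update f e i a).symm

theorem IsEmb.qf (h : IsEmb S R f) {φ : Fm} (hφ : IsQF φ) :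
    ∀ e : ℕ → M, φ.Sat R (f ∘ e) ↔ φ.Sat S e := by
  induction hφ with
  | eq s t => intro e; simp only [sat_eq, h.val, h.inj.eq_iff]
  | lt s t => intro e; simp only [sat_lt, h.val, h.lt]
  | neg _ ih => intro e; rw [sat_neg, sat_neg, ih]
  | and _ _ ih1 ih2 => intro e; rw [sat_and, sat_and, ih1, ih2]

theorem IsEmb.ex (h : IsEmb S R f) {φ : Fm} (hφ : IsEx φ) :
    ∀ e : ℕ → M, φ.Sat S e → φ.Sat R (f ∘ e) := by
  induction hφ with
  | qf hφ => intro e he; exact (h.qf hφ e).2 he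
  | @ex i φ _ ih =>
      rintro e ⟨a, ha⟩
      refine ⟨f a, ?_⟩
      rw [comp_update]
      exact ih _ ha

/-- isomorphic structures satisfy the same formulas -/
theorem IsEmb.iso (h : IsEmb S R f) (hf : Surjective f) (φ : Fm) :
    ∀ e : ℕ → M, φ.Sat R (f ∘ e) ↔ φ.Sat S e := by
  induction φ with
  | eq s t => intro e; simp only [sat_eq, h.val, h.inj.eq_iff]
  | lt s t => intro e; simp only [sat_lt, h.val, h.lt]
  | neg _ ih => intro e; rw [sat_neg, sat_neg, ih]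
  | and _ _ ih1 ih2 => intro e; rw [sat_and, sat_and, ih1, ih2]
  | ex i φ ih =>
      intro e
      rw [sat_ex, sat_ex]
      constructor
      · rintro ⟨b, hb⟩
        obtain ⟨a, rfl⟩ := hf b
        rw [comp_update, ih] at hb
        exact ⟨a, hb⟩
      · rintro ⟨a, ha⟩
        refine ⟨f a, ?_⟩
        rw [comp_update, ih]
        exact ha
  | all i φ ih =>
      intro e
      rw [sat_all, sat_all]
      constructor
      · intro hb a
        have := hb (f a)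
        rw [comp_update, ih] at this
        exact this
      · intro ha b
        obtain ⟨a, rfl⟩ := hf b
        rw [comp_update, ih]
        exact ha a

end

/-- two disjoint embeddings of the forest -/
def emb (b : Bool) (v : Nd) : Nd := (2 * v.1 + (if b then 1 else 0), v.2)

theorem emb_inj {b b' : Bool} {v v' : Nd} (h : emb b v = emb b' v') : b = b' ∧ v = v' := by
  obtain ⟨k, w⟩ := v
  obtain ⟨k', w'⟩ := v'
  simp only [emb, Prod.mk.injEq] at h ⊢
  obtain ⟨h1, h2⟩ := h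
  cases b <;> cases b' <;> simp at h1 ⊢
  · exact ⟨h1, h2⟩
  · omega
  · omega
  · exact ⟨h1, h2⟩

theorem col_rho_emb (b : Bool) (v : Nd) : col rho (emb b v) = col rho v := rfl

theorem isChild_emb {b b' : Bool} {v w : Nd} :
    IsChild (emb b v) (emb b' w) ↔ b = b' ∧ IsChild v w := by
  constructor
  · rintro ⟨k, r, a, l, h1, h2⟩
    obtain ⟨k1, r1, l1⟩ := v
    obtain ⟨k2, r2, l2⟩ := w
    simp only [emb, Prod.mk.injEq] at h1 h2
    obtain ⟨h1, rfl, rfl⟩ := h1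
    obtain ⟨h2, rfl, rfl⟩ := h2
    have : b = b' ∧ k1 = k2 := by
      cases b <;> cases b' <;> simp at h1 h2 ⊢ <;> omega
    obtain ⟨rfl, rfl⟩ := this
    exact ⟨rfl, k1, r2, a, l1, rfl, rfl⟩
  · rintro ⟨rfl, k, r, a, l, rfl, rfl⟩
    exact ⟨_, r, a, l, rfl, rfl⟩

theorem rel_emb {b b' : Bool} {v w : Nd} :
    Rel rho (emb b v) (emb b' w) ↔ b = b' ∧ Rel rho v w := by
  unfold Rel
  rw [isChild_emb, isChild_emb, col_rho_emb]
  have : (emb b v).2.1 = v.2.1 := rfl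
  rw [this]
  constructor
  · rintro (⟨h1, h2⟩ | ⟨⟨h1, h2⟩, h3⟩)
    · exact ⟨h1, Or.inl h2⟩
    · exact ⟨h1.symm, Or.inr ⟨h2, h3⟩⟩
  · rintro ⟨h1, h2 | ⟨h2, h3⟩⟩
    · exact Or.inl ⟨h1, h2⟩
    · exact Or.inr ⟨⟨h1.symm, h2⟩, h3⟩

/-- both copies of a finite set -/
noncomputable def J (s : Finset Nd) : Finset Nd := s.image (emb false) ∪ s.image (emb true)

theorem mem_J {s : Finset Nd} {w : Nd} : w ∈ J s ↔ ∃ v ∈ s, ∃ b, w = emb b v := by
  simp only [J, Finset.mem_union, Finset.mem_image]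
  constructor
  · rintro (⟨v, h1, h2⟩ | ⟨v, h1, h2⟩)
    · exact ⟨v, h1, false, h2.symm⟩
    · exact ⟨v, h1, true, h2.symm⟩
  · rintro ⟨v, h1, b, h2⟩
    cases b
    · exact Or.inl ⟨v, h1, h2.symm⟩
    · exact Or.inr ⟨v, h1, h2.symm⟩

theorem emb_mem_J {s : Finset Nd} {b : Bool} {v : Nd} : emb b v ∈ J s ↔ v ∈ s := by
  rw [mem_J]
  constructor
  · rintro ⟨v', h1, b', h2⟩
    obtain ⟨_, rfl⟩ := emb_inj h2
    exact h1
  · intro h; exact ⟨v, h, b, rfl⟩

theorem J_subset {s t : Finset Nd} : J s ⊆ J t ↔ s ⊆ t := by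
  constructor
  · intro h v hv
    exact (emb_mem_J (b := true)).1 (h (emb_mem_J.2 hv))
  · intro h w hw
    obtain ⟨v, hv, b, rfl⟩ := mem_J.1 hw
    exact emb_mem_J.2 (h hv)

theorem J_nonempty {s : Finset Nd} (h : s.Nonempty) : (J s).Nonempty := by
  obtain ⟨v, hv⟩ := h
  exact ⟨emb true v, emb_mem_J.2 hv⟩

/-- the self-embedding -/
noncomputable def jm : Mo Nd → Mo Nd
  | .nat n => .nat n
  | .fs s h => .fs (J s) (J_nonempty h)

theorem isEmb_jm : IsEmb (str (Rel rho)) (str (Rel rho)) jm := by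
  refine ⟨?_, rfl, rfl, ?_, ?_, ?_⟩
  · intro x y hxy
    rcases x with n | ⟨s, hs⟩ <;> rcases y with m | ⟨t, ht⟩ <;>
      simp only [jm, Mo.fs.injEq, Mo.nat.injEq, reduceCtorEq] at hxy ⊢
    · exact hxy
    · exact Finset.Subset.antisymm (J_subset.1 hxy.le) (J_subset.1 hxy.ge)
  · intro x y
    rcases x with n | ⟨s, hs⟩ <;> rcases y with m | ⟨t, ht⟩ <;>
      simp only [jm, str_add, moAdd, Mo.fs.injEq]
    ext w
    simp only [Finset.mem_union, mem_J]
    constructor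
    · rintro ⟨v, h1 | h1, b, h2⟩
      · exact Or.inl ⟨v, h1, b, h2⟩
      · exact Or.inr ⟨v, h1, b, h2⟩
    · rintro (⟨v, h1, b, h2⟩ | ⟨v, h1, b, h2⟩)
      · exact ⟨v, Or.inl h1, b, h2⟩
      · exact ⟨v, Or.inr h1, b, h2⟩
  · intro x y
    rcases x with n | ⟨s, hs⟩ <;> rcases y with m | ⟨t, ht⟩
    · rfl
    · rfl
    · rcases m with _ | m <;> rfl
    · simp only [jm, str_mul, moMul, Mo.fs.injEq]
      ext w
      rw [mem_J, mem_mulSet]
      constructor
      · rintro ⟨v, h1, b, rfl⟩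
        rw [mem_mulSet] at h1
        rcases h1 with h1 | ⟨h1, u, h2, h3⟩
        · exact Or.inl (emb_mem_J.2 h1)
        · exact Or.inr ⟨emb_mem_J.2 h1, emb b u, emb_mem_J.2 h2, rel_emb.2 ⟨rfl, h3⟩⟩
      · rintro (h1 | ⟨h1, u, h2, h3⟩)
        · obtain ⟨v, h5, b, rfl⟩ := mem_J.1 h1
          exact ⟨v, mem_mulSet.2 (Or.inl h5), b, rfl⟩
        · obtain ⟨v, h5, b, rfl⟩ := mem_J.1 h1
          obtain ⟨u, h6, b', rfl⟩ := mem_J.1 h2
          exact ⟨v, mem_mulSet.2 (Or.inr ⟨h5, u, h6, (rel_emb.1 h3).2⟩), b, rfl⟩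
  · intro x y
    rcases x with n | ⟨s, hs⟩ <;> rcases y with m | ⟨t, ht⟩ <;>
      simp only [jm, str_lt, moLt]
    exact J_subset.symm

theorem IsD0.imp {φ ψ : Fm} (h1 : IsD0 φ) (h2 : IsD0 ψ) : IsD0 (φ.imp ψ) :=
  .neg (.and h1 (.neg h2))

theorem fSing_D0 (i : ℕ) : IsD0 (fSing i) := by
  refine .and (.eq _ _) (.ball ?_ (IsD0.imp (.eq _ _) (.eq _ _)))
  simp [Tm.vars]

theorem not_mrdp (left : Bool) : Th (str (Rel rho)) ∉ Tmrdp left := by
  rintro ⟨_, h⟩
  obtain ⟨ψ, hψ, h⟩ := h (fSing 0) (.up (.base (fSing_D0 0)))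
  have h := h _ _ (models_Th (str (Rel rho)))
  set r0 : Nd := (0, 0, [])
  have h1 : (fSing 0).Sat (str (Rel rho)) (fun _ => sg r0) := by
    rw [fSing_sat]; exact ⟨r0, rfl⟩
  rw [h] at h1
  have h2 := isEmb_jm.ex hψ _ h1
  rw [← h, fSing_sat] at h2
  obtain ⟨w, hw⟩ := h2
  simp only [comp_apply, sg, jm, Mo.fs.injEq] at hw
  have h3 : emb true r0 ∈ J {r0} := emb_mem_J.2 (by simp)
  have h4 : emb false r0 ∈ J {r0} := emb_mem_J.2 (by simp)
  rw [hw, Finset.mem_singleton] at h3 h4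
  have := (emb_inj (h3.trans h4.symm)).1
  simp at this

end Pool.Agent.R601.QT
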