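import Pool.Agent.R601.QT.Forest

set_option autoImplicit false

namespace Pool.Agent.R601.QT

open Function Classical

variable {V : Type}

/-- the relation between the two structures given by a finite matching -/
def MRel (P : Finset (V × V)) : Mo V → Mo V → Prop
  | .nat n, .nat m => n = m
  | .nat _, .fs _ _ => False
  | .fs _ _, .nat _ => False
  | .fs s _, .fs t _ => (∀ v ∈ s, ∃ w ∈ t, (v, w) ∈ P) ∧ (∀ w ∈ t, ∃ v ∈ s, (v, w) ∈ P)

/-- finite partial isomorphism -/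
structure PI (R R' : V → V → Prop) (P : Finset (V × V)) : Prop where
  inj : ∀ p ∈ P, ∀ q ∈ P, (p.1 = q.1 ↔ p.2 = q.2)
  rel : ∀ v w v' w', (v, v') ∈ P → (w, w') ∈ P → (R v w ↔ R' v' w')

theorem MRel.mono {P P' : Finset (V × V)} (h : P ⊆ P') {x y : Mo V} (hxy : MRel P x y) :
    MRel P' x y := by
  rcases x with n | ⟨s, hs⟩ <;> rcases y with m | ⟨t, ht⟩
  · exact hxy
  · exact hxy
  · exact hxy
  · refine ⟨fun v hv => ?_, fun w hw => ?_⟩
    · obtain ⟨w, h1, h2⟩ := hxy.1 v hv; exact ⟨w, h1, h h2⟩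
    · obtain ⟨v, h1, h2⟩ := hxy.2 w hw; exact ⟨v, h1, h h2⟩

theorem MRel.swap {P : Finset (V × V)} {x y : Mo V} (hxy : MRel P x y) :
    MRel (sw P) y x := by
  rcases x with n | ⟨s, hs⟩ <;> rcases y with m | ⟨t, ht⟩
  · exact Eq.symm hxy
  · exact hxy
  · exact hxy
  · refine ⟨fun v hv => ?_, fun w hw => ?_⟩
    · obtain ⟨w, h1, h2⟩ := hxy.2 v hv; exact ⟨w, h1, mem_swap.2 h2⟩
    · obtain ⟨v, h1, h2⟩ := hxy.1 w hw; exact ⟨v, h1, mem_swap.2 h2⟩

theorem PI.swap {R R' : V → V → Prop} {P : Finset (V × V)} (h : PI R R' P) :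
    PI R' R (sw P) := by
  constructor
  · rintro ⟨a, b⟩ hp ⟨c, d⟩ hq
    rw [mem_swap] at hp hq
    exact (h.inj _ hp _ hq).symm
  · intro v w v' w' hv hw
    rw [mem_swap] at hv hw
    exact (h.rel _ _ _ _ hv hw).symm

variable {R R' : V → V → Prop} {P : Finset (V × V)}

theorem PI.left_eq (h : PI R R' P) {v v' w : V} (h1 : (v, w) ∈ P) (h2 : (v', w) ∈ P) : v = v' :=
  (h.inj _ h1 _ h2).2 rfl

theorem PI.right_eq (h : PI R R' P) {v w w' : V} (h1 : (v, w) ∈ P) (h2 : (v, w') ∈ P) : w = w' :=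
  (h.inj _ h1 _ h2).1 rfl

theorem PI.add {x y x' y' : Mo V} (hx : MRel P x x') (hy : MRel P y y') :
    MRel P (moAdd x y) (moAdd x' y') := by
  rcases x with n | ⟨s, hs⟩ <;> rcases x' with n' | ⟨s', hs'⟩ <;>
    rcases y with m | ⟨t, ht⟩ <;> rcases y' with m' | ⟨t', ht'⟩ <;>
    simp only [MRel, moAdd] at hx hy ⊢
  · rw [hx, hy]
  · exact hy
  · exact hx
  · constructor
    · intro v hv
      rw [Finset.mem_union] at hv
      rcases hv with hv | hv
      · obtain ⟨w, h1, h2⟩ := hx.1 v hv; exact ⟨w, Finset.mem_union_left _ h1, h2⟩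
      · obtain ⟨w, h1, h2⟩ := hy.1 v hv; exact ⟨w, Finset.mem_union_right _ h1, h2⟩
    · intro v hv
      rw [Finset.mem_union] at hv
      rcases hv with hv | hv
      · obtain ⟨w, h1, h2⟩ := hx.2 v hv; exact ⟨w, Finset.mem_union_left _ h1, h2⟩
      · obtain ⟨w, h1, h2⟩ := hy.2 v hv; exact ⟨w, Finset.mem_union_right _ h1, h2⟩

theorem PI.mul (h : PI R R' P) {x y x' y' : Mo V} (hx : MRel P x x') (hy : MRel P y y') :
    MRel P (moMul R x y) (moMul R' x' y') := by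
  rcases x with n | ⟨s, hs⟩ <;> rcases x' with n' | ⟨s', hs'⟩ <;>
    rcases y with m | ⟨t, ht⟩ <;> rcases y' with m' | ⟨t', ht'⟩ <;>
    first
      | exact hx.elim
      | exact hy.elim
      | skip
  · simp only [MRel] at hx hy
    subst hx; subst hy
    simp [moMul, MRel]
  · exact hy
  · simp only [MRel] at hy
    subst hy
    rcases m with _ | m
    · simp [moMul, MRel]
    · exact hx
  · simp only [moMul, MRel] at hx hy ⊢
    constructor
    · intro v hv
      rw [mem_mulSet] at hv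
      rcases hv with hv | ⟨hv, u, hu, huv⟩
      · obtain ⟨w, h1, h2⟩ := hx.1 v hv
        exact ⟨w, mem_mulSet.2 (Or.inl h1), h2⟩
      · obtain ⟨w, h1, h2⟩ := hy.1 v hv
        obtain ⟨u', h3, h4⟩ := hx.1 u hu
        exact ⟨w, mem_mulSet.2 (Or.inr ⟨h1, u', h3, (h.rel _ _ _ _ h4 h2).1 huv⟩), h2⟩
    · intro v hv
      rw [mem_mulSet] at hv
      rcases hv with hv | ⟨hv, u, hu, huv⟩
      · obtain ⟨w, h1, h2⟩ := hx.2 v hv
        exact ⟨w, mem_mulSet.2 (Or.inl h1), h2⟩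
      · obtain ⟨w, h1, h2⟩ := hy.2 v hv
        obtain ⟨u', h3, h4⟩ := hx.2 u hu
        exact ⟨w, mem_mulSet.2 (Or.inr ⟨h1, u', h3, (h.rel _ _ _ _ h4 h2).2 huv⟩), h2⟩

theorem PI.subset (h : PI R R' P) {s t s' t' : Finset V} {hs : s.Nonempty} {ht : t.Nonempty}
    {hs' : s'.Nonempty} {ht' : t'.Nonempty} (hx : MRel P (.fs s hs) (.fs s' hs'))
    (hy : MRel P (.fs t ht) (.fs t' ht')) (hst : s ⊆ t) : s' ⊆ t' := by
  intro w hw
  obtain ⟨v, h1, h2⟩ := hx.2 w hw
  obtain ⟨w', h3, h4⟩ := hy.1 v (hst h1)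
  rw [h.right_eq h2 h4]
  exact h3

theorem PI.eq_mp (h : PI R R' P) {x y x' y' : Mo V} (hx : MRel P x x') (hy : MRel P y y')
    (hxy : x = y) : x' = y' := by
  subst hxy
  rcases x with n | ⟨s, hs⟩ <;> rcases x' with n' | ⟨s', hs'⟩ <;>
    rcases y' with m' | ⟨t', ht'⟩ <;>
    first
      | exact hx.elim
      | exact hy.elim
      | skip
  · simp only [MRel] at hx hy
    rw [← hx, hy]
  · congr 1
    exact Finset.Subset.antisymm (h.subset hx hy subset_rfl) (h.subset hy hx subset_rfl)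

theorem PI.eq_iff (h : PI R R' P) {x y x' y' : Mo V} (hx : MRel P x x') (hy : MRel P y y') :
    x = y ↔ x' = y' :=
  ⟨h.eq_mp hx hy, h.swap.eq_mp hx.swap hy.swap⟩

theorem PI.lt_mp (h : PI R R' P) {x y x' y' : Mo V} (hx : MRel P x x') (hy : MRel P y y')
    (hxy : moLt x y) : moLt x' y' := by
  rcases x with n | ⟨s, hs⟩ <;> rcases x' with n' | ⟨s', hs'⟩ <;>
    rcases y with m | ⟨t, ht⟩ <;> rcases y' with m' | ⟨t', ht'⟩ <;>
    first
      | exact hx.elim
      | exact hy.elim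
      | skip
  · simp only [MRel] at hx hy
    rw [← hx, ← hy]; exact hxy
  · trivial
  · exact hxy.elim
  · exact h.subset hx hy hxy

theorem PI.lt_iff (h : PI R R' P) {x y x' y' : Mo V} (hx : MRel P x x') (hy : MRel P y y') :
    moLt x y ↔ moLt x' y' :=
  ⟨h.lt_mp hx hy, h.swap.lt_mp hx.swap hy.swap⟩

theorem PI.val (h : PI R R' P) {e e' : ℕ → Mo V} (he : ∀ i, MRel P (e i) (e' i)) :
    ∀ t : Tm, MRel P (t.val (str R) e) (t.val (str R') e')
  | .var i => he i
  | .zero => by simp [Tm.val, MRel]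
  | .one => by simp [Tm.val, MRel]
  | .add s t => PI.add (h.val he s) (h.val he t)
  | .mul s t => h.mul (h.val he s) (h.val he t)

theorem exists_partner {x : Mo V} (hx : ∀ s hs, x = .fs s hs → ∀ v ∈ s, ∃ w, (v, w) ∈ P) :
    ∃ x', MRel P x x' := by
  rcases x with n | ⟨s, hs⟩
  · exact ⟨.nat n, rfl⟩
  · have h := hx s hs rfl
    refine ⟨.fs ((P.filter fun p => p.1 ∈ s).image Prod.snd) ?_, ?_, ?_⟩
    · obtain ⟨v, hv⟩ := hs
      obtain ⟨w, hw⟩ := h v hv
      exact ⟨w, Finset.mem_image.2 ⟨(v, w), Finset.mem_filter.2 ⟨hw, hv⟩, rfl⟩⟩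
    · intro v hv
      obtain ⟨w, hw⟩ := h v hv
      exact ⟨w, Finset.mem_image.2 ⟨(v, w), Finset.mem_filter.2 ⟨hw, hv⟩, rfl⟩, hw⟩
    · intro w hw
      obtain ⟨⟨v, w'⟩, h1, rfl⟩ := Finset.mem_image.1 hw
      rw [Finset.mem_filter] at h1
      exact ⟨v, h1.2, h1.1⟩

theorem PI.partner (_h : PI R R' P) {x y y' : Mo V} (hy : MRel P y y') (hxy : moLt x y) :
    ∃ x', MRel P x x' := by
  apply exists_partner
  intro s hs hx v hv
  subst hx
  rcases y with m | ⟨t, ht⟩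
  · exact hxy.elim
  · rcases y' with m' | ⟨t', ht'⟩
    · exact hy.elim
    · obtain ⟨w, _, h2⟩ := hy.1 v (hxy hv)
      exact ⟨w, h2⟩

theorem MRel.update {e e' : ℕ → Mo V} (he : ∀ i, MRel P (e i) (e' i)) {x x' : Mo V}
    (hx : MRel P x x') (i : ℕ) : ∀ j, MRel P (update e i x j) (update e' i x' j) := by
  intro j
  by_cases hj : j = i
  · subst hj; simpa using hx
  · simpa [hj] using he j

theorem PI.sat {φ : Fm} (hφ : IsD0 φ) : ∀ {R R' : V → V → Prop} {P : Finset (V × V)},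
    PI R R' P → ∀ {e e' : ℕ → Mo V}, (∀ i, MRel P (e i) (e' i)) →
    φ.Sat (str R) e → φ.Sat (str R') e' := by
  suffices H : ∀ {R R' : V → V → Prop} {P : Finset (V × V)},
      PI R R' P → ∀ {e e' : ℕ → Mo V}, (∀ i, MRel P (e i) (e' i)) →
      (φ.Sat (str R) e ↔ φ.Sat (str R') e') by
    intro R R' P h e e' he
    exact (H h he).1
  induction hφ with
  | eq s t => intro R R' P h e e' he; exact h.eq_iff (h.val he s) (h.val he t)
  | lt s t => intro R R' P h e e' he; exact h.lt_iff (h.val he s) (h.val he t)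
  | neg _ ih => intro R R' P h e e' he; rw [sat_neg, sat_neg, ih h he]
  | and _ _ ih1 ih2 => intro R R' P h e e' he; rw [sat_and, sat_and, ih1 h he, ih2 h he]
  | @bex i t φ hit hφ ih =>
      have key : ∀ {R R' : V → V → Prop} {P : Finset (V × V)},
          PI R R' P → ∀ {e e' : ℕ → Mo V}, (∀ i, MRel P (e i) (e' i)) →
          ((Fm.bex i t φ).Sat (str R) e → (Fm.bex i t φ).Sat (str R') e') := by
        intro R R' P h e e' he
        rw [sat_bex, sat_bex]
        rintro ⟨a, h1, h2⟩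
        rw [Tm.val_update _ _ hit] at h1
        obtain ⟨a', ha⟩ := h.partner (h.val he t) h1
        refine ⟨a', ?_, (ih h (MRel.update he ha i)).1 h2⟩
        rw [Tm.val_update _ _ hit]
        exact h.lt_mp ha (h.val he t) h1
      intro R R' P h e e' he
      exact ⟨key h he, key h.swap (fun i => (he i).swap)⟩
  | @ball i t φ hit hφ ih =>
      have key : ∀ {R R' : V → V → Prop} {P : Finset (V × V)},
          PI R R' P → ∀ {e e' : ℕ → Mo V}, (∀ i, MRel P (e i) (e' i)) →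
          ((Fm.ball i t φ).Sat (str R') e' → (Fm.ball i t φ).Sat (str R) e) := by
        intro R R' P h e e' he
        rw [sat_ball, sat_ball]
        intro h2 a h1
        rw [Tm.val_update _ _ hit] at h1
        obtain ⟨a', ha⟩ := h.partner (h.val he t) h1
        refine (ih h (MRel.update he ha i)).2 (h2 a' ?_)
        rw [Tm.val_update _ _ hit]
        exact h.lt_mp ha (h.val he t) h1
      intro R R' P h e e' he
      exact ⟨key h.swap (fun i => (he i).swap), key h he⟩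

theorem BF.pi {n : ℕ} {ρ ρ' : ℕ → ℕ → Bool} {P : Finset (Nd × Nd)} (h : BF n ρ ρ' P) :
    PI (Rel ρ) (Rel ρ') P :=
  ⟨h.inj, fun _ _ _ _ hv hw => h.rel hv hw⟩

theorem BF.partner {n : ℕ} {ρ ρ' : ℕ → ℕ → Bool} {P : Finset (Nd × Nd)}
    (hg : Good (n + 1) ρ ρ') (h : BF (n + 1) ρ ρ' P) (x : Mo Nd) :
    ∃ P', P ⊆ P' ∧ BF (n + 1) ρ ρ' P' ∧ ∃ x', MRel P' x x' := by
  rcases x with m | ⟨s, hs⟩
  · exact ⟨P, subset_rfl, h, .nat m, rfl⟩
  · obtain ⟨P', h1, h2, h3⟩ := BF.ext_finset hg s P h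
    refine ⟨P', h1, h2, exists_partner ?_⟩
    intro s' hs' heq
    simp only [Mo.fs.injEq] at heq
    subst heq
    exact h3

/-- `Σ_n`-formulas are preserved by the back-and-forth relation at level `n`. -/
theorem BF.pres {b : Bool} {n : ℕ} {φ : Fm} (hφ : IsS b n φ) :
    ∀ (ρ ρ' : ℕ → ℕ → Bool) (P : Finset (Nd × Nd)),
      (∀ m ≤ n, Good m ρ ρ' ∧ Good m ρ' ρ) → BF n ρ ρ' P →
      ∀ e e' : ℕ → Mo Nd, (∀ i, MRel P (e i) (e' i)) →
      (b = true → φ.Sat (str (Rel ρ)) e → φ.Sat (str (Rel ρ')) e') ∧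
      (b = false → φ.Sat (str (Rel ρ')) e' → φ.Sat (str (Rel ρ)) e) := by
  induction hφ with
  | base hφ =>
      intro ρ ρ' P _ h e e' he
      exact ⟨fun _ => PI.sat hφ h.pi he, fun _ => PI.sat hφ h.pi.swap (fun i => (he i).swap)⟩
  | @up b n φ _ ih =>
      intro ρ ρ' P hg h e e' he
      have := ih ρ' ρ _ (fun m hm => (hg m (by omega)).symm) h.swap e' e (fun i => (he i).swap)
      refine ⟨fun hb => this.2 (by simp [hb]), fun hb => this.1 (by simp [hb])⟩
  | @ex n i φ _ ih =>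
      intro ρ ρ' P hg h e e' he
      refine ⟨fun _ => ?_, fun hb => by simp at hb⟩
      rintro ⟨a, ha⟩
      obtain ⟨P', h1, h2, a', h3⟩ := h.partner (hg (n + 1) le_rfl).1 a
      exact ⟨a', (ih ρ ρ' P' hg h2 _ _ (MRel.update (fun i => (he i).mono h1) h3 i)).1 rfl ha⟩
  | @all n i φ _ ih =>
      intro ρ ρ' P hg h e e' he
      refine ⟨fun hb => by simp at hb, fun _ => ?_⟩
      intro hall a
      obtain ⟨P', h1, h2, a', h3⟩ := h.partner (hg (n + 1) le_rfl).1 a
      exact (ih ρ ρ' P' hg h2 _ _ (MRel.update (fun i => (he i).mono h1) h3 i)).2 rfl (hall a')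

/-- the colours of the roots: all `true` -/
def rho : ℕ → ℕ → Bool := fun _ _ => true

/-- the colours of the roots: all `true`, except for one root of rank `m` -/
def rhoM (m : ℕ) : ℕ → ℕ → Bool := fun k R => if k = 0 ∧ R = m then false else true

theorem good_rho (m n : ℕ) : Good n rho (rhoM m) := by
  intro κ R F
  obtain ⟨k, hk⟩ := Infinite.exists_notMem_finset (insert 0 F)
  simp only [Finset.mem_insert, not_or] at hk
  refine ⟨k, hk.2, Or.inl ?_⟩
  simp [rho, rhoM, hk.1]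

theorem good_rhoM {m n : ℕ} (h : n ≤ m) (h1 : 1 ≤ m) : Good n (rhoM m) rho := by
  intro κ R F
  obtain ⟨k, hk⟩ := Infinite.exists_notMem_finset F
  refine ⟨k, hk, ?_⟩
  by_cases hc : κ = 0 ∧ R = m
  · right; left
    refine ⟨by simp [rhoM, hc], rfl, by omega, by omega⟩
  · left
    simp [rho, rhoM, hc]

/-- All `Σ_n`-sentences which are true in `M(rho)` are true in `M(rhoM m)`, `m ≥ n`. -/
theorem sigma_pres {n m : ℕ} (h : n ≤ m) (h1 : 1 ≤ m) {φ : Fm} (hφ : IsS true n φ)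
    (hs : φ.Sat (str (Rel rho)) (fun _ => .nat 0)) :
    φ.Sat (str (Rel (rhoM m))) (fun _ => .nat 0) := by
  have hbf : BF n rho (rhoM m) ∅ :=
    ⟨⟨by simp, by simp, by simp, by simp⟩, by simp⟩
  refine (BF.pres hφ rho (rhoM m) ∅ ?_ hbf (fun _ => .nat 0) (fun _ => .nat 0)
    (fun _ => show MRel ∅ (.nat 0) (.nat 0) from rfl)).1 rfl hs
  exact fun k hk => ⟨good_rho m k, good_rhoM (by omega) h1⟩

end Pool.Agent.R601.QT
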