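import Pool.Agent.R601.QT.Mrdp
import Mathlib.Computability.Halting

set_option autoImplicit false

/-! The structure `M(rho)` has a recursive copy. -/

namespace Pool.Agent.R601.QT

open Function Classical

/-! ### Coding finite sets of numbers by bits -/

/-- the set of the binary digits -/
noncomputable def bs (m : ℕ) : Finset ℕ := Finset.equivBitIndices m

/-- the number with a given set of binary digits -/
noncomputable def bc (s : Finset ℕ) : ℕ := Finset.equivBitIndices.symm s

theorem bs_bc (s : Finset ℕ) : bs (bc s) = s := Finset.equivBitIndices.apply_symm_apply s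
theorem bc_bs (m : ℕ) : bc (bs m) = m := Finset.equivBitIndices.symm_apply_apply m

theorem mem_bs {m i : ℕ} : i ∈ bs m ↔ m.testBit i = true := by
  simp [bs, Finset.equivBitIndices]

theorem testBit_bc {s : Finset ℕ} {i : ℕ} : (bc s).testBit i = true ↔ i ∈ s := by
  rw [← mem_bs, bs_bc]

theorem lt_of_testBit {m i : ℕ} (h : m.testBit i = true) : i < m :=
  lt_of_lt_of_le i.lt_two_pow_self (Nat.ge_two_pow_of_testBit h)

theorem bc_inj {s t : Finset ℕ} (h : bc s = bc t) : s = t := by
  rw [← bs_bc s, h, bs_bc]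

theorem bc_pos {s : Finset ℕ} (h : s.Nonempty) : 1 ≤ bc s := by
  obtain ⟨i, hi⟩ := h
  have := lt_of_testBit (testBit_bc.2 hi)
  omega

theorem bs_nonempty {m : ℕ} (h : 1 ≤ m) : (bs m).Nonempty := by
  rw [Finset.nonempty_iff_ne_empty]
  intro h0
  have : m = 0 := by
    apply Nat.eq_of_testBit_eq
    intro i
    have h1 : m.testBit i ≠ true := by
      rw [Ne, ← mem_bs, h0]; simp
    simp only [Bool.not_eq_true] at h1
    rw [h1]; simp
  omega

theorem eq_iff_testBit {m n : ℕ} : m = n ↔ ∀ i, (m.testBit i = true ↔ n.testBit i = true) := by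
  constructor
  · rintro rfl; simp
  · intro h
    apply Nat.eq_of_testBit_eq
    intro i
    rw [Bool.eq_iff_iff]
    exact h i

theorem bc_union (s t : Finset ℕ) : bc (s ∪ t) = bc s ||| bc t := by
  rw [eq_iff_testBit]
  intro i
  rw [testBit_bc, Nat.testBit_or, Bool.or_eq_true, testBit_bc, testBit_bc, Finset.mem_union]

theorem bc_le_of_subset {s t u : Finset ℕ} (h : s ⊆ t ∪ u) : bc s ≤ bc t + bc u := by
  by_contra hc
  push Not at hc
  -- the highest bit where they differ: use `∑ 2^i`
  have h1 : bc s = ∑ i ∈ s, 2 ^ i := rfl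
  have h2 : bc t = ∑ i ∈ t, 2 ^ i := rfl
  have h3 : bc u = ∑ i ∈ u, 2 ^ i := rfl
  have h4 : ∑ i ∈ s, 2 ^ i ≤ ∑ i ∈ t ∪ u, 2 ^ i := Finset.sum_le_sum_of_subset h
  have h5 : ∑ i ∈ t ∪ u, 2 ^ i + ∑ i ∈ t ∩ u, 2 ^ i = ∑ i ∈ t, 2 ^ i + ∑ i ∈ u, 2 ^ i :=
    Finset.sum_union_inter
  omega

/-! ### Primitive recursive relations -/

section pr
variable {α : Type} [Primcodable α]

theorem pr_forall_lt {R : ℕ → α → Prop} (hR : PrimrecRel R) {f : α → ℕ} (hf : Primrec f) :
    PrimrecPred (fun a => ∀ x < f a, R x a) :=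
  (hR.forall_mem_list.comp (Primrec.list_range.comp hf) Primrec.id).of_eq (by simp)

theorem pr_exists_lt {R : ℕ → α → Prop} (hR : PrimrecRel R) {f : α → ℕ} (hf : Primrec f) :
    PrimrecPred (fun a => ∃ x < f a, R x a) :=
  (hR.exists_mem_list.comp (Primrec.list_range.comp hf) Primrec.id).of_eq (by simp)

theorem pr_testBit : PrimrecRel (fun m i : ℕ => m.testBit i = true) := by
  have hpow : Primrec₂ (fun a b : ℕ => a ^ b) := Primrec₂.unpaired'.1 Nat.Primrec.pow
  have h : PrimrecRel (fun m i : ℕ => m / 2 ^ i % 2 = 1) :=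
    Primrec.eq.comp (Primrec.nat_mod.comp
      (Primrec.nat_div.comp Primrec.fst (hpow.comp (Primrec.const 2) Primrec.snd))
      (Primrec.const 2)) (Primrec.const 1)
  refine h.of_eq (fun m i => ?_)
  rw [Nat.testBit_eq_decide_div_mod_eq]
  simp

theorem pr_iff {p q : α → Prop} (hp : PrimrecPred p) (hq : PrimrecPred q) :
    PrimrecPred (fun a => p a ↔ q a) :=
  ((hp.and hq).or (hp.not.and hq.not)).of_eq (fun a => by tauto)

theorem pr_imp {p q : α → Prop} (hp : PrimrecPred p) (hq : PrimrecPred q) :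
    PrimrecPred (fun a => p a → q a) :=
  (hp.not.or hq).of_eq (fun a => by tauto)

end pr

theorem pr_isChild : PrimrecRel IsChild := by
  have h : PrimrecRel (fun v w : Nd => v.1 = w.1 ∧ v.2.1 = w.2.1 + 1 ∧ w.2.2 ≠ [] ∧
      w.2.2.tail = v.2.2) := by
    refine PrimrecPred.and ?_ (PrimrecPred.and ?_ (PrimrecPred.and ?_ ?_))
    · exact Primrec.eq.comp (Primrec.fst.comp Primrec.fst) (Primrec.fst.comp Primrec.snd)
    · exact Primrec.eq.comp (Primrec.fst.comp (Primrec.snd.comp Primrec.fst))
        (Primrec.succ.comp (Primrec.fst.comp (Primrec.snd.comp Primrec.snd)))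
    · exact (Primrec.eq.comp (Primrec.snd.comp (Primrec.snd.comp Primrec.snd))
        (Primrec.const [])).not
    · exact Primrec.eq.comp
        (Primrec.list_tail.comp (Primrec.snd.comp (Primrec.snd.comp Primrec.snd)))
        (Primrec.snd.comp (Primrec.snd.comp Primrec.fst))
  refine h.of_eq (fun v w => ?_)
  obtain ⟨k, r, l⟩ := v
  obtain ⟨k', r', l'⟩ := w
  simp only
  constructor
  · rintro ⟨rfl, rfl, h3, h4⟩
    rcases l' with _ | ⟨a, l'⟩
    · exact absurd rfl h3
    · simp only [List.tail_cons] at h4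
      subst h4
      exact ⟨k, r', a, l', rfl, rfl⟩
  · rintro ⟨k1, r1, a, l1, h1, h2⟩
    simp only [Prod.mk.injEq] at h1 h2
    obtain ⟨rfl, rfl, rfl⟩ := h1
    obtain ⟨rfl, rfl, rfl⟩ := h2
    exact ⟨rfl, rfl, by simp, rfl⟩

theorem colL_eq_foldr (l : List ℕ) :
    colL true l = l.foldr (fun a s => _root_.cond s (decide (a % 2 = 0)) true) true := by
  induction l with
  | nil => rfl
  | cons a l ih =>
      simp only [colL, List.foldr_cons, ← ih]
      cases colL true l <;> rfl

theorem pr_col : Primrec (col rho) := by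
  have h : Primrec (fun v : Nd =>
      v.2.2.foldr (fun a s => _root_.cond s (decide (a % 2 = 0)) true) true) := by
    refine Primrec.list_foldr (f := fun v : Nd => v.2.2) (g := fun _ => true)
      (h := fun (_ : Nd) (p : ℕ × Bool) => _root_.cond p.2 (decide (p.1 % 2 = 0)) true)
      (Primrec.snd.comp Primrec.snd) (Primrec.const true) ?_
    refine Primrec.cond (Primrec.snd.comp Primrec.snd) ?_ (Primrec.const true)
    have h2 : PrimrecPred (fun p : Nd × (ℕ × Bool) => p.2.1 % 2 = 0) :=
      Primrec.eq.comp (Primrec.nat_mod.comp (Primrec.fst.comp Primrec.snd) (Primrec.const 2))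
        (Primrec.const 0)
    exact h2.decide
  refine h.of_eq (fun v => ?_)
  rw [← colL_eq_foldr]
  rfl

theorem pr_rel : PrimrecRel (Rel rho) := by
  unfold Rel
  refine PrimrecPred.or pr_isChild (PrimrecPred.and ?_ (PrimrecPred.and ?_ ?_))
  · exact pr_isChild.comp Primrec.snd Primrec.fst
  · exact Primrec.eq.comp (Primrec.fst.comp (Primrec.snd.comp Primrec.fst)) (Primrec.const 0)
  · exact Primrec.eq.comp (pr_col.comp Primrec.fst) (Primrec.const true)

/-- the enumeration of the nodes -/
noncomputable def nd (j : ℕ) : Nd := (Encodable.decode (α := Nd) j).getD (0, 0, [])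

theorem nd_bij : Bijective nd := by
  have h : nd = Denumerable.ofNat Nd := by
    funext j
    simp only [nd, Denumerable.decode_eq_ofNat, Option.getD_some]
  rw [h]
  exact (Denumerable.eqv Nd).symm.bijective

theorem pr_nd : Primrec nd := Primrec.option_getD.comp Primrec.decode (Primrec.const _)

/-- the relation on the codes -/
def Rn (j i : ℕ) : Prop := Rel rho (nd j) (nd i)

theorem pr_Rn : PrimrecRel Rn :=
  pr_rel.comp (pr_nd.comp Primrec.fst) (pr_nd.comp Primrec.snd)

/-! ### The recursive structure -/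

/-- the product of two codes -/
noncomputable def mulc (m m' : ℕ) : ℕ := bc (mulSet Rn (bs m) (bs m'))

theorem testBit_mulc {m m' i : ℕ} : (mulc m m').testBit i = true ↔
    m.testBit i = true ∨ (m'.testBit i = true ∧ ∃ j < m, m.testBit j = true ∧ Rn j i) := by
  rw [mulc, testBit_bc, mem_mulSet, mem_bs, mem_bs]
  apply or_congr_right
  apply and_congr_right
  intro _
  constructor
  · rintro ⟨j, hj, h⟩
    rw [mem_bs] at hj
    exact ⟨j, lt_of_testBit hj, hj, h⟩
  · rintro ⟨j, _, hj, h⟩
    exact ⟨j, mem_bs.2 hj, h⟩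

theorem graph_iff {m n : ℕ} {P : ℕ → Prop} (hm : ∀ i, m.testBit i = true ↔ P i) {N : ℕ}
    (hN : m ≤ N) (hN' : n ≤ N) :
    m = n ↔ ∀ i < N, (n.testBit i = true ↔ P i) := by
  constructor
  · rintro rfl i _
    exact hm i
  · intro h
    rw [eq_iff_testBit]
    intro i
    by_cases hi : i < N
    · rw [hm, h i hi]
    · constructor
      · intro h1; exact absurd (lt_of_lt_of_le (lt_of_testBit h1) hN) hi
      · intro h1; exact absurd (lt_of_lt_of_le (lt_of_testBit h1) hN') hi

theorem lor_le (m m' : ℕ) : m ||| m' ≤ m + m' := by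
  rw [← bc_bs m, ← bc_bs m', ← bc_union]
  exact bc_le_of_subset subset_rfl

theorem mulc_le (m m' : ℕ) : mulc m m' ≤ m + m' := by
  conv_rhs => rw [← bc_bs m, ← bc_bs m']
  apply bc_le_of_subset
  intro i hi
  rw [mem_mulSet] at hi
  rw [Finset.mem_union]
  tauto

theorem pr_lor : Primrec₂ (fun m m' : ℕ => m ||| m') := by
  refine Primrec.of_graph ⟨fun p => p.1 + p.2, Primrec.nat_add, fun p => lor_le _ _⟩ ?_
  have h : PrimrecRel (fun (p : ℕ × ℕ) (n : ℕ) => ∀ i < p.1 + p.2 + n,
      (n.testBit i = true ↔ (p.1.testBit i = true ∨ p.2.testBit i = true))) := by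
    refine pr_forall_lt (α := (ℕ × ℕ) × ℕ) (R := fun i q => q.2.testBit i = true ↔
      (q.1.1.testBit i = true ∨ q.1.2.testBit i = true)) (f := fun q => q.1.1 + q.1.2 + q.2) ?_ ?_
    · refine pr_iff ?_ (PrimrecPred.or ?_ ?_)
      · exact pr_testBit.comp (Primrec.snd.comp Primrec.snd) Primrec.fst
      · exact pr_testBit.comp (Primrec.fst.comp (Primrec.fst.comp Primrec.snd)) Primrec.fst
      · exact pr_testBit.comp (Primrec.snd.comp (Primrec.fst.comp Primrec.snd)) Primrec.fst
    · exact Primrec.nat_add.comp (Primrec.nat_add.comp (Primrec.fst.comp Primrec.fst)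
        (Primrec.snd.comp Primrec.fst)) Primrec.snd
  refine h.of_eq (fun p n => ?_)
  refine (graph_iff (m := p.1 ||| p.2) (fun i => by rw [Nat.testBit_or, Bool.or_eq_true])
    ?_ ?_).symm
  · have := lor_le p.1 p.2; omega
  · omega

theorem pr_mulc : Primrec₂ mulc := by
  refine Primrec.of_graph ⟨fun p => p.1 + p.2, Primrec.nat_add, fun p => mulc_le _ _⟩ ?_
  have h : PrimrecRel (fun (p : ℕ × ℕ) (n : ℕ) => ∀ i < p.1 + p.2 + n,
      (n.testBit i = true ↔ (p.1.testBit i = true ∨ (p.2.testBit i = true ∧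
        ∃ j < p.1, p.1.testBit j = true ∧ Rn j i)))) := by
    refine pr_forall_lt (α := (ℕ × ℕ) × ℕ) (R := fun i q => q.2.testBit i = true ↔
      (q.1.1.testBit i = true ∨ (q.1.2.testBit i = true ∧
        ∃ j < q.1.1, q.1.1.testBit j = true ∧ Rn j i)))
      (f := fun q => q.1.1 + q.1.2 + q.2) ?_ ?_
    · refine pr_iff ?_ (PrimrecPred.or ?_ (PrimrecPred.and ?_ ?_))
      · exact pr_testBit.comp (Primrec.snd.comp Primrec.snd) Primrec.fst
      · exact pr_testBit.comp (Primrec.fst.comp (Primrec.fst.comp Primrec.snd)) Primrec.fst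
      · exact pr_testBit.comp (Primrec.snd.comp (Primrec.fst.comp Primrec.snd)) Primrec.fst
      · refine pr_exists_lt (α := ℕ × ((ℕ × ℕ) × ℕ))
          (R := fun j x => x.2.1.1.testBit j = true ∧ Rn j x.1) (f := fun x => x.2.1.1) ?_ ?_
        · refine PrimrecPred.and ?_ ?_
          · exact pr_testBit.comp (Primrec.fst.comp (Primrec.fst.comp
              (Primrec.snd.comp Primrec.snd))) Primrec.fst
          · exact pr_Rn.comp Primrec.fst (Primrec.fst.comp Primrec.snd)
        · exact Primrec.fst.comp (Primrec.fst.comp Primrec.snd)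
    · exact Primrec.nat_add.comp (Primrec.nat_add.comp (Primrec.fst.comp Primrec.fst)
        (Primrec.snd.comp Primrec.fst)) Primrec.snd
  refine h.of_eq (fun p n => ?_)
  refine (graph_iff (m := mulc p.1 p.2) (fun i => testBit_mulc) ?_ ?_).symm
  · have := mulc_le p.1 p.2; omega
  · omega

noncomputable def recAdd (x y : ℕ) : ℕ :=
  if x % 2 = 0 then (if y % 2 = 0 then x + y else y)
  else (if y % 2 = 0 then x else 2 * (((x + 1) / 2) ||| ((y + 1) / 2)) - 1)

noncomputable def recMul (x y : ℕ) : ℕ :=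
  if x % 2 = 0 then (if y % 2 = 0 then 2 * ((x / 2) * (y / 2)) else y)
  else (if y % 2 = 0 then (if y = 0 then 0 else x) else 2 * (mulc ((x + 1) / 2) ((y + 1) / 2)) - 1)

def recLt (x y : ℕ) : Prop :=
  (x % 2 = 0 ∧ y % 2 = 0 ∧ x < y) ∨ (x % 2 = 0 ∧ ¬ y % 2 = 0) ∨
    (¬ x % 2 = 0 ∧ ¬ y % 2 = 0 ∧ ∀ i < (x + 1) / 2, ((x + 1) / 2).testBit i = true →
      ((y + 1) / 2).testBit i = true)

/-- the recursive structure -/
noncomputable def recStr : Str ℕ := ⟨0, 2, recAdd, recMul, recLt⟩

theorem pr_even1 : PrimrecPred (fun p : ℕ × ℕ => p.1 % 2 = 0) :=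
  Primrec.eq.comp (Primrec.nat_mod.comp Primrec.fst (Primrec.const 2)) (Primrec.const 0)

theorem pr_even2 : PrimrecPred (fun p : ℕ × ℕ => p.2 % 2 = 0) :=
  Primrec.eq.comp (Primrec.nat_mod.comp Primrec.snd (Primrec.const 2)) (Primrec.const 0)

theorem pr_half1 : Primrec (fun p : ℕ × ℕ => (p.1 + 1) / 2) :=
  Primrec.nat_div.comp (Primrec.succ.comp Primrec.fst) (Primrec.const 2)

theorem pr_half2 : Primrec (fun p : ℕ × ℕ => (p.2 + 1) / 2) :=
  Primrec.nat_div.comp (Primrec.succ.comp Primrec.snd) (Primrec.const 2)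

theorem pr_recAdd : Primrec₂ recAdd := by
  refine Primrec.ite pr_even1 (Primrec.ite pr_even2 Primrec.nat_add Primrec.snd)
    (Primrec.ite pr_even2 Primrec.fst ?_)
  exact Primrec.nat_sub.comp (Primrec.nat_mul.comp (Primrec.const 2)
    (pr_lor.comp pr_half1 pr_half2)) (Primrec.const 1)

theorem pr_recMul : Primrec₂ recMul := by
  refine Primrec.ite pr_even1 (Primrec.ite pr_even2 ?_ Primrec.snd)
    (Primrec.ite pr_even2 (Primrec.ite ?_ (Primrec.const 0) Primrec.fst) ?_)
  · exact Primrec.nat_mul.comp (Primrec.const 2) (Primrec.nat_mul.comp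
      (Primrec.nat_div.comp Primrec.fst (Primrec.const 2))
      (Primrec.nat_div.comp Primrec.snd (Primrec.const 2)))
  · exact Primrec.eq.comp Primrec.snd (Primrec.const 0)
  · exact Primrec.nat_sub.comp (Primrec.nat_mul.comp (Primrec.const 2)
      (pr_mulc.comp pr_half1 pr_half2)) (Primrec.const 1)

theorem pr_recLt : PrimrecPred (fun p : ℕ × ℕ => recLt p.1 p.2) := by
  refine PrimrecPred.or (PrimrecPred.and pr_even1 (PrimrecPred.and pr_even2 ?_))
    (PrimrecPred.or (PrimrecPred.and pr_even1 pr_even2.not)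
      (PrimrecPred.and pr_even1.not (PrimrecPred.and pr_even2.not ?_)))
  · exact Primrec.nat_lt
  · refine pr_forall_lt (α := ℕ × ℕ) (R := fun i p => ((p.1 + 1) / 2).testBit i = true →
      ((p.2 + 1) / 2).testBit i = true) ?_ pr_half1
    refine pr_imp ?_ ?_
    · exact pr_testBit.comp (pr_half1.comp Primrec.snd) Primrec.fst
    · exact pr_testBit.comp (pr_half2.comp Primrec.snd) Primrec.fst

/-! ### The isomorphism -/

theorem exists_nd (v : Nd) : ∃ j, nd j = v := nd_bij.2 v

/-- the code of a finite set of nodes -/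
noncomputable def cs (s : Finset Nd) : Finset ℕ := s.preimage nd nd_bij.1.injOn

theorem mem_cs {s : Finset Nd} {j : ℕ} : j ∈ cs s ↔ nd j ∈ s := by simp [cs]

theorem cs_inj {s t : Finset Nd} (h : cs s = cs t) : s = t := by
  ext v
  obtain ⟨j, rfl⟩ := exists_nd v
  rw [← mem_cs, h, mem_cs]

theorem cs_nonempty {s : Finset Nd} (h : s.Nonempty) : (cs s).Nonempty := by
  obtain ⟨v, hv⟩ := h
  obtain ⟨j, rfl⟩ := exists_nd v
  exact ⟨j, mem_cs.2 hv⟩

/-- the isomorphism of `M(rho)` with the recursive structure -/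
noncomputable def fiso : Mo Nd → ℕ
  | .nat n => 2 * n
  | .fs s _ => 2 * bc (cs s) - 1

theorem fiso_fs {s : Finset Nd} (h : s.Nonempty) :
    (fiso (.fs s h)) % 2 = 1 ∧ (fiso (.fs s h) + 1) / 2 = bc (cs s) := by
  have := bc_pos (cs_nonempty h)
  simp only [fiso]
  constructor <;> omega

theorem isEmb_fiso : IsEmb (str (Rel rho)) recStr fiso := by
  have hfs : ∀ {s : Finset Nd} (h : s.Nonempty), 1 ≤ bc (cs s) := fun h => bc_pos (cs_nonempty h)
  refine ⟨?_, rfl, rfl, ?_, ?_, ?_⟩
  · intro x y hxy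
    rcases x with n | ⟨s, hs⟩ <;> rcases y with m | ⟨t, ht⟩
    · simp only [fiso] at hxy
      rw [show n = m by omega]
    · have := hfs ht
      simp only [fiso] at hxy; omega
    · have := hfs hs
      simp only [fiso] at hxy; omega
    · have h1 := hfs hs
      have h2 := hfs ht
      simp only [fiso] at hxy
      have h3 : s = t := cs_inj (bc_inj (by omega))
      subst h3
      rfl
  · intro x y
    rcases x with n | ⟨s, hs⟩ <;> rcases y with m | ⟨t, ht⟩
    · simp only [str_add, moAdd, recStr, recAdd, fiso]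
      rw [if_pos (by omega), if_pos (by omega)]
      ring
    · obtain ⟨h1, h2⟩ := fiso_fs ht
      simp only [str_add, moAdd, recStr, recAdd]
      rw [if_pos (by simp [fiso]), if_neg (by omega)]
    · obtain ⟨h1, h2⟩ := fiso_fs hs
      simp only [str_add, moAdd, recStr, recAdd]
      rw [if_neg (by omega), if_pos (by simp [fiso])]
    · obtain ⟨h1, h2⟩ := fiso_fs ht
      obtain ⟨h3, h4⟩ := fiso_fs hs
      simp only [str_add, moAdd, recStr, recAdd]
      rw [if_neg (by omega), if_neg (by omega), h2, h4, ← bc_union]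
      simp only [fiso]
      congr 3
      ext j
      simp only [mem_cs, Finset.mem_union]
  · intro x y
    rcases x with n | ⟨s, hs⟩ <;> rcases y with m | ⟨t, ht⟩
    · simp only [str_mul, moMul, recStr, recMul, fiso]
      rw [if_pos (by omega), if_pos (by omega)]
      congr 1
      rw [show 2 * n / 2 = n by omega, show 2 * m / 2 = m by omega]
    · obtain ⟨h1, h2⟩ := fiso_fs ht
      simp only [str_mul, moMul, recStr, recMul]
      rw [if_pos (by simp [fiso]), if_neg (by omega)]
    · obtain ⟨h1, h2⟩ := fiso_fs hs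
      rcases m with _ | m
      · simp only [str_mul, moMul, recStr, recMul]
        rw [if_neg (by omega), if_pos (by simp [fiso]), if_pos (by simp [fiso])]
        rfl
      · simp only [str_mul, moMul, recStr, recMul]
        rw [if_neg (by omega), if_pos (by simp [fiso]), if_neg (by simp [fiso])]
    · obtain ⟨h1, h2⟩ := fiso_fs ht
      obtain ⟨h3, h4⟩ := fiso_fs hs
      simp only [str_mul, moMul, recStr, recMul]
      rw [if_neg (by omega), if_neg (by omega), h2, h4]
      simp only [fiso, mulc, bs_bc]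
      congr 3
      ext i
      simp only [mem_cs, mem_mulSet]
      apply or_congr_right
      apply and_congr_right
      intro _
      constructor
      · rintro ⟨v, hv, hR⟩
        obtain ⟨j, rfl⟩ := exists_nd v
        exact ⟨j, hv, hR⟩
      · rintro ⟨j, hj, hR⟩
        exact ⟨nd j, hj, hR⟩
  · intro x y
    rcases x with n | ⟨s, hs⟩ <;> rcases y with m | ⟨t, ht⟩
    · simp only [str_lt, moLt, recStr, recLt, fiso]
      constructor
      · intro h; left; omega
      · rintro (h | h | h) <;> omega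
    · obtain ⟨h1, h2⟩ := fiso_fs ht
      simp only [str_lt, moLt, recStr, recLt, true_iff]
      right; left
      exact ⟨by simp [fiso], by omega⟩
    · obtain ⟨h1, h2⟩ := fiso_fs hs
      simp only [str_lt, moLt, recStr, recLt, false_iff]
      have h3 : fiso (.nat m) % 2 = 0 := by simp [fiso]
      rintro (h | h | h)
      · omega
      · omega
      · exact h.2.1 h3
    · obtain ⟨h1, h2⟩ := fiso_fs ht
      obtain ⟨h3, h4⟩ := fiso_fs hs
      simp only [str_lt, moLt, recStr, recLt]
      rw [h2, h4]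
      constructor
      · intro h
        right; right
        refine ⟨by omega, by omega, fun i _ hi => ?_⟩
        rw [testBit_bc, mem_cs] at hi ⊢
        exact h hi
      · rintro (h | h | h)
        · omega
        · omega
        · intro v hv
          obtain ⟨j, rfl⟩ := exists_nd v
          have h5 : (bc (cs s)).testBit j = true := testBit_bc.2 (mem_cs.2 hv)
          have := h.2.2 j (lt_of_testBit h5) h5
          rw [testBit_bc, mem_cs] at this
          exact this

theorem fiso_surj : Surjective fiso := by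
  intro x
  by_cases hx : x % 2 = 0
  · exact ⟨.nat (x / 2), by simp only [fiso]; omega⟩
  · have h1 : 1 ≤ (x + 1) / 2 := by omega
    have h2 : cs ((bs ((x + 1) / 2)).image nd) = bs ((x + 1) / 2) := by
      ext j
      rw [mem_cs, Finset.mem_image]
      constructor
      · rintro ⟨i, hi, h⟩
        rwa [← nd_bij.1 h]
      · intro h; exact ⟨j, h, rfl⟩
    refine ⟨.fs ((bs ((x + 1) / 2)).image nd) ((bs_nonempty h1).image nd), ?_⟩
    simp only [fiso, h2, bc_bs]
    omega

theorem not_iso_std : ¬ Iso recStr stdStr := by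
  rintro ⟨f, _, h0, h1, hadd, _, _⟩
  -- `1 + 1 = 1` for the code `1` of a set
  have h : recAdd 1 2 = 1 := by simp [recAdd]
  have h2 := hadd 1 2
  simp only [recStr] at h2 h1
  rw [h, h1] at h2
  simp only [stdStr] at h2
  omega

theorem not_nrec (left : Bool) : Th (str (Rel rho)) ∉ Tnrec left := by
  rintro ⟨_, h⟩
  apply h
  refine ⟨recStr, ?_, pr_recAdd.to_comp, pr_recMul.to_comp, pr_recLt.computablePred,
    not_iso_std⟩
  intro φ hφ e
  have h1 := (isEmb_fiso.iso fiso_surj φ (fun _ => .nat 0)).2 (hφ.2 _)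
  exact (hφ.1.sat_iff recStr _ _).1 h1

end Pool.Agent.R601.QT
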