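import Pool.Agent.R601.QT.Mrdp

set_option autoImplicit false

/-!
`Th (M(V, R))` does not support a definable truth predicate for bounded formulas: by a
Feferman-Vaught argument, every formula with parameters from the set part defines an arithmetical
relation on the natural numbers, and these are defined by bounded formulas with a parameter.
-/

namespace Pool.Agent.R601.QT

open Function Classical

/-! ### Arithmetical relations -/

/-- arithmetical relations on the natural numbers (of assignments) -/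
def AR (P : (ℕ → ℕ) → Prop) : Prop := ∃ ψ : Fm, ∀ a, P a ↔ ψ.Sat stdStr a

theorem AR.of_iff {P Q : (ℕ → ℕ) → Prop} (h : AR P) (hPQ : ∀ a, Q a ↔ P a) : AR Q := by
  obtain ⟨ψ, hψ⟩ := h
  exact ⟨ψ, fun a => (hPQ a).trans (hψ a)⟩

theorem AR.const (p : Prop) : AR (fun _ => p) := by
  by_cases hp : p
  · exact ⟨.eq .zero .zero, fun a => by simp [hp]⟩
  · exact ⟨.neg (.eq .zero .zero), fun a => by simp [hp]⟩

theorem AR.not {P : (ℕ → ℕ) → Prop} (h : AR P) : AR (fun a => ¬ P a) := by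
  obtain ⟨ψ, hψ⟩ := h
  exact ⟨.neg ψ, fun a => by simp only [hψ, sat_neg]⟩

theorem AR.and {P Q : (ℕ → ℕ) → Prop} (h : AR P) (h' : AR Q) : AR (fun a => P a ∧ Q a) := by
  obtain ⟨ψ, hψ⟩ := h
  obtain ⟨ψ', hψ'⟩ := h'
  exact ⟨.and ψ ψ', fun a => by simp only [hψ, hψ', sat_and]⟩

theorem AR.iff {P Q : (ℕ → ℕ) → Prop} (h : AR P) (h' : AR Q) : AR (fun a => P a ↔ Q a) :=
  ((h.and h'.not).not.and (h'.and h.not).not).of_iff (fun a => by tauto)

theorem AR.ex {P : (ℕ → ℕ) → Prop} (h : AR P) (i : ℕ) : AR (fun a => ∃ m, P (update a i m)) := by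
  obtain ⟨ψ, hψ⟩ := h
  exact ⟨.ex i ψ, fun a => by simp only [hψ, sat_ex]⟩

theorem AR.forall_list {K : Type} (P : K → (ℕ → ℕ) → Prop) (h : ∀ k, AR (P k)) (L : List K) :
    AR (fun a => ∀ k ∈ L, P k a) := by
  induction L with
  | nil => exact (AR.const True).of_iff (fun a => by simp)
  | cons k L ih => exact ((h k).and ih).of_iff (fun a => by simp)

theorem AR.forall_fin {K : Type} [Finite K] (P : K → (ℕ → ℕ) → Prop) (h : ∀ k, AR (P k)) :
    AR (fun a => ∀ k, P k a) := by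
  have := Fintype.ofFinite K
  exact (AR.forall_list P h Finset.univ.toList).of_iff (fun a => by simp)

theorem AR.exists_fin {K : Type} [Finite K] (P : K → (ℕ → ℕ) → Prop) (h : ∀ k, AR (P k)) :
    AR (fun a => ∃ k, P k a) :=
  (AR.forall_fin (fun k a => ¬ P k a) (fun k => (h k).not)).not.of_iff (fun a => by simp)

/-! ### Tame relations -/

/-- the set part of the structure -/
abbrev Dt (V : Type) : Type := {s : Finset V // s.Nonempty}

/-- the inclusion of the set part -/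
def dm {V : Type} (d : Dt V) : Mo V := .fs d.1 d.2

/-- A colouring of the assignments by finitely many colours, with arithmetical colour classes. -/
def ArCol {K : Type} (c : (ℕ → ℕ) → K) : Prop := ∀ k, AR (fun a => c a = k)

theorem ArCol.prod {K L : Type} {c : (ℕ → ℕ) → K} {d : (ℕ → ℕ) → L} (hc : ArCol c)
    (hd : ArCol d) : ArCol (fun a => (c a, d a)) := by
  rintro ⟨k, l⟩
  exact ((hc k).and (hd l)).of_iff (fun a => by simp)

theorem ArCol.pi {K : Type} [Finite K] {L : K → Type} {c : ∀ k, (ℕ → ℕ) → L k}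
    (h : ∀ k, ArCol (c k)) : ArCol (fun a k => c k a) := by
  intro f
  exact (AR.forall_fin (fun k a => c k a = f k) (fun k => h k (f k))).of_iff
    (fun a => by rw [funext_iff])

theorem ArCol.prop {P : (ℕ → ℕ) → Prop} (h : AR P) : ArCol P := by
  intro p
  exact (h.iff (AR.const p)).of_iff (fun a => by simp)

variable {V : Type}

/-- tame relations: finite unions of products of arithmetical relations and arbitrary relations
on the set part -/
def TR (X : (ℕ → ℕ) → (ℕ → Dt V) → Prop) : Prop :=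
  ∃ (K : Type) (_ : Finite K) (c : (ℕ → ℕ) → K), ArCol c ∧
    ∀ k, ∃ g : (ℕ → Dt V) → Prop, ∀ a b, c a = k → (X a b ↔ g b)

/-- tame functions -/
def TV (F : (ℕ → ℕ) → (ℕ → Dt V) → Mo V) : Prop :=
  ∃ (K : Type) (_ : Finite K) (c : (ℕ → ℕ) → K), ArCol c ∧
    ∀ k, (∃ τ : Tm, ∀ a b, c a = k → F a b = .nat (τ.val stdStr a)) ∨
      ∃ γ : (ℕ → Dt V) → Dt V, ∀ a b, c a = k → F a b = dm (γ b)

theorem TR.of_AR {P : (ℕ → ℕ) → Prop} (h : AR P) : TR (V := V) (fun a _ => P a) :=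
  ⟨Prop, inferInstance, P, ArCol.prop h, fun p => ⟨fun _ => p, fun a _ h => by simp only [h]⟩⟩

theorem TR.of_set (g : (ℕ → Dt V) → Prop) : TR (fun _ b => g b) :=
  ⟨Unit, inferInstance, fun _ => (), fun _ => (AR.const True).of_iff (fun a => by simp),
    fun _ => ⟨g, fun _ _ _ => Iff.rfl⟩⟩

/-- relations which are piecewise tame are tame -/
theorem TR.piece {K : Type} [Finite K] {c : (ℕ → ℕ) → K} (hc : ArCol c)
    {X : (ℕ → ℕ) → (ℕ → Dt V) → Prop}
    (h : ∀ k, ∃ Y, TR Y ∧ ∀ a b, c a = k → (X a b ↔ Y a b)) : TR X := by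
  choose Y hY hXY using h
  choose L hL d hd g hg using hY
  refine ⟨K × (∀ k, L k), inferInstance, fun a => (c a, fun k => d k a),
    hc.prod (ArCol.pi hd), ?_⟩
  rintro ⟨k, f⟩
  refine ⟨g k (f k), fun a b hab => ?_⟩
  simp only [Prod.mk.injEq] at hab
  rw [hXY k a b hab.1]
  exact hg k (f k) a b (by rw [← hab.2])

theorem TV.piece {K : Type} [Finite K] {c : (ℕ → ℕ) → K} (hc : ArCol c)
    {X : (ℕ → ℕ) → (ℕ → Dt V) → Mo V}
    (h : ∀ k, ∃ Y, TV Y ∧ ∀ a b, c a = k → X a b = Y a b) : TV X := by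
  choose Y hY hXY using h
  choose L hL d hd g using hY
  refine ⟨K × (∀ k, L k), inferInstance, fun a => (c a, fun k => d k a),
    hc.prod (ArCol.pi hd), ?_⟩
  rintro ⟨k, f⟩
  rcases g k (f k) with ⟨τ, hτ⟩ | ⟨γ, hγ⟩
  · refine Or.inl ⟨τ, fun a b hab => ?_⟩
    simp only [Prod.mk.injEq] at hab
    rw [hXY k a b hab.1]
    exact hτ a b (by rw [← hab.2])
  · refine Or.inr ⟨γ, fun a b hab => ?_⟩
    simp only [Prod.mk.injEq] at hab
    rw [hXY k a b hab.1]
    exact hγ a b (by rw [← hab.2])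

theorem TR.not {X : (ℕ → ℕ) → (ℕ → Dt V) → Prop} (h : TR X) : TR (fun a b => ¬ X a b) := by
  obtain ⟨K, hK, c, hc, h⟩ := h
  refine ⟨K, hK, c, hc, fun k => ?_⟩
  obtain ⟨g, hg⟩ := h k
  exact ⟨fun b => ¬ g b, fun a b hab => not_congr (hg a b hab)⟩

theorem TR.and {X Y : (ℕ → ℕ) → (ℕ → Dt V) → Prop} (h : TR X) (h' : TR Y) :
    TR (fun a b => X a b ∧ Y a b) := by
  obtain ⟨K, hK, c, hc, h⟩ := h
  obtain ⟨K', hK', c', hc', h'⟩ := h'
  refine ⟨K × K', inferInstance, _, hc.prod hc', ?_⟩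
  rintro ⟨k, k'⟩
  obtain ⟨g, hg⟩ := h k
  obtain ⟨g', hg'⟩ := h' k'
  refine ⟨fun b => g b ∧ g' b, fun a b hab => ?_⟩
  simp only [Prod.mk.injEq] at hab
  exact and_congr (hg a b hab.1) (hg' a b hab.2)

theorem TR.or {X Y : (ℕ → ℕ) → (ℕ → Dt V) → Prop} (h : TR X) (h' : TR Y) :
    TR (fun a b => X a b ∨ Y a b) := by
  have := (h.not.and h'.not).not
  convert this using 3
  tauto

theorem TR.exD {X : (ℕ → ℕ) → (ℕ → Dt V) → Prop} (h : TR X) (i : ℕ) :
    TR (fun a b => ∃ d, X a (update b i d)) := by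
  obtain ⟨K, hK, c, hc, h⟩ := h
  refine ⟨K, hK, c, hc, fun k => ?_⟩
  obtain ⟨g, hg⟩ := h k
  exact ⟨fun b => ∃ d, g (update b i d), fun a b hab => exists_congr fun d => hg a _ hab⟩

theorem TR.exN {X : (ℕ → ℕ) → (ℕ → Dt V) → Prop} (h : TR X) (i : ℕ) :
    TR (fun a b => ∃ m, X (update a i m) b) := by
  obtain ⟨K, hK, c, hc, h⟩ := h
  choose g hg using h
  refine ⟨Set K, inferInstance, fun a => {k | ∃ m, c (update a i m) = k}, ?_, ?_⟩
  · intro S
    refine (AR.forall_fin (fun k a => (∃ m, c (update a i m) = k) ↔ k ∈ S)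
      (fun k => ((hc k).ex i).iff (AR.const _))).of_iff (fun a => ?_)
    rw [Set.ext_iff]
    rfl
  · intro S
    refine ⟨fun b => ∃ k ∈ S, g k b, fun a b hab => ?_⟩
    constructor
    · rintro ⟨m, hm⟩
      refine ⟨c (update a i m), ?_, (hg _ _ b rfl).1 hm⟩
      rw [← hab]; exact ⟨m, rfl⟩
    · rintro ⟨k, hk, hgk⟩
      rw [← hab] at hk
      obtain ⟨m, hm⟩ := hk
      exact ⟨m, (hg k _ b hm).2 hgk⟩

/-- the assignment with values `b i` in the set part if `s i` and values `a i` otherwise -/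
def mix (s : ℕ → Bool) (a : ℕ → ℕ) (b : ℕ → Dt V) (i : ℕ) : Mo V :=
  if s i then dm (b i) else .nat (a i)

theorem update_mix_nat (s : ℕ → Bool) (a : ℕ → ℕ) (b : ℕ → Dt V) (i m : ℕ) :
    update (mix s a b) i (.nat m) = mix (update s i false) (update a i m) b := by
  funext j
  by_cases hj : j = i
  · subst hj; simp [mix]
  · simp [mix, hj]

theorem update_mix_dm (s : ℕ → Bool) (a : ℕ → ℕ) (b : ℕ → Dt V) (i : ℕ) (d : Dt V) :
    update (mix s a b) i (dm d) = mix (update s i true) a (update b i d) := by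
  funext j
  by_cases hj : j = i
  · subst hj; simp [mix]
  · simp [mix, hj]

theorem TV.term (τ : Tm) : TV (V := V) (fun a _ => .nat (τ.val stdStr a)) :=
  ⟨Unit, inferInstance, fun _ => (), fun _ => (AR.const True).of_iff (fun a => by simp),
    fun _ => Or.inl ⟨τ, fun _ _ _ => rfl⟩⟩

theorem TV.set (γ : (ℕ → Dt V) → Dt V) : TV (fun _ b => dm (γ b)) :=
  ⟨Unit, inferInstance, fun _ => (), fun _ => (AR.const True).of_iff (fun a => by simp),
    fun _ => Or.inr ⟨γ, fun _ _ _ => rfl⟩⟩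

theorem TV.add {F G : (ℕ → ℕ) → (ℕ → Dt V) → Mo V} (hF : TV F) (hG : TV G) :
    TV (fun a b => moAdd (F a b) (G a b)) := by
  obtain ⟨K, hK, c, hc, hF⟩ := hF
  obtain ⟨K', hK', c', hc', hG⟩ := hG
  refine TV.piece (hc.prod hc') ?_
  rintro ⟨k, k'⟩
  rcases hF k with ⟨τ, hτ⟩ | ⟨γ, hγ⟩ <;> rcases hG k' with ⟨τ', hτ'⟩ | ⟨γ', hγ'⟩
  · refine ⟨_, TV.term (.add τ τ'), fun a b hab => ?_⟩
    simp only [Prod.mk.injEq] at hab
    rw [hτ a b hab.1, hτ' a b hab.2]
    rfl
  · refine ⟨_, TV.set γ', fun a b hab => ?_⟩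
    simp only [Prod.mk.injEq] at hab
    rw [hτ a b hab.1, hγ' a b hab.2]
    rfl
  · refine ⟨_, TV.set γ, fun a b hab => ?_⟩
    simp only [Prod.mk.injEq] at hab
    rw [hγ a b hab.1, hτ' a b hab.2]
    rfl
  · refine ⟨_, TV.set (fun b => ⟨(γ b).1 ∪ (γ' b).1, (γ b).2.mono Finset.subset_union_left⟩),
      fun a b hab => ?_⟩
    simp only [Prod.mk.injEq] at hab
    rw [hγ a b hab.1, hγ' a b hab.2]
    rfl

theorem TV.mul (R : V → V → Prop) {F G : (ℕ → ℕ) → (ℕ → Dt V) → Mo V} (hF : TV F) (hG : TV G) :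
    TV (fun a b => moMul R (F a b) (G a b)) := by
  obtain ⟨K, hK, c, hc, hF⟩ := hF
  obtain ⟨K', hK', c', hc', hG⟩ := hG
  refine TV.piece (hc.prod hc') ?_
  rintro ⟨k, k'⟩
  rcases hF k with ⟨τ, hτ⟩ | ⟨γ, hγ⟩ <;> rcases hG k' with ⟨τ', hτ'⟩ | ⟨γ', hγ'⟩
  · refine ⟨_, TV.term (.mul τ τ'), fun a b hab => ?_⟩
    simp only [Prod.mk.injEq] at hab
    rw [hτ a b hab.1, hτ' a b hab.2]
    rfl
  · refine ⟨_, TV.set γ', fun a b hab => ?_⟩
    simp only [Prod.mk.injEq] at hab
    rw [hτ a b hab.1, hγ' a b hab.2]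
    rfl
  · refine ⟨fun a b => if τ'.val stdStr a = 0 then .nat 0 else dm (γ b), ?_, fun a b hab => ?_⟩
    · have hP : AR (fun a => τ'.val stdStr a = 0) :=
        ⟨.eq τ' .zero, fun a => by simp [Tm.val, stdStr]⟩
      refine TV.piece (ArCol.prop hP) ?_
      intro p
      by_cases hp : p
      · refine ⟨_, TV.term .zero, fun a b hab => ?_⟩
        rw [if_pos (by rw [hab]; exact hp)]
        rfl
      · refine ⟨_, TV.set γ, fun a b hab => ?_⟩
        rw [if_neg (by rw [hab]; exact hp)]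
    · simp only [Prod.mk.injEq] at hab
      rw [hγ a b hab.1, hτ' a b hab.2]
      by_cases h0 : τ'.val stdStr a = 0
      · simp only [h0, if_true]; rfl
      · simp only [if_neg h0]
        obtain ⟨m, hm⟩ := Nat.exists_eq_succ_of_ne_zero h0
        rw [hm]; rfl
  · refine ⟨_, TV.set (fun b => ⟨mulSet R (γ b).1 (γ' b).1, mulSet_nonempty (γ b).2⟩),
      fun a b hab => ?_⟩
    simp only [Prod.mk.injEq] at hab
    rw [hγ a b hab.1, hγ' a b hab.2]
    rfl

theorem TV.val (R : V → V → Prop) (s : ℕ → Bool) :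
    ∀ t : Tm, TV (fun a b => t.val (str R) (mix s a b))
  | .var i => by
      by_cases hs : s i
      · have : (fun (a : ℕ → ℕ) (b : ℕ → Dt V) => (Tm.var i).val (str R) (mix s a b)) =
            fun _ b => dm (b i) := by
          funext a b; simp [Tm.val, mix, hs]
        rw [this]
        exact TV.set (fun b => b i)
      · have : (fun (a : ℕ → ℕ) (b : ℕ → Dt V) => (Tm.var i).val (str R) (mix s a b)) =
            fun a _ => .nat ((Tm.var i).val stdStr a) := by
          funext a b; simp [Tm.val, mix, hs]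
        rw [this]
        exact TV.term _
  | .zero => TV.term .zero
  | .one => TV.term .one
  | .add s' t => (TV.val R s s').add (TV.val R s t)
  | .mul s' t => (TV.val R s s').mul R (TV.val R s t)

theorem TR.eq {F G : (ℕ → ℕ) → (ℕ → Dt V) → Mo V} (hF : TV F) (hG : TV G) :
    TR (fun a b => F a b = G a b) := by
  obtain ⟨K, hK, c, hc, hF⟩ := hF
  obtain ⟨K', hK', c', hc', hG⟩ := hG
  refine TR.piece (hc.prod hc') ?_
  rintro ⟨k, k'⟩
  rcases hF k with ⟨τ, hτ⟩ | ⟨γ, hγ⟩ <;> rcases hG k' with ⟨τ', hτ'⟩ | ⟨γ', hγ'⟩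
  · refine ⟨_, TR.of_AR ⟨.eq τ τ', fun a => Iff.rfl⟩, fun a b hab => ?_⟩
    simp only [Prod.mk.injEq] at hab
    rw [hτ a b hab.1, hτ' a b hab.2]
    simp
  · refine ⟨_, TR.of_set (fun _ => False), fun a b hab => ?_⟩
    simp only [Prod.mk.injEq] at hab
    rw [hτ a b hab.1, hγ' a b hab.2]
    simp [dm]
  · refine ⟨_, TR.of_set (fun _ => False), fun a b hab => ?_⟩
    simp only [Prod.mk.injEq] at hab
    rw [hγ a b hab.1, hτ' a b hab.2]
    simp [dm]
  · refine ⟨_, TR.of_set (fun b => dm (γ b) = dm (γ' b)), fun a b hab => ?_⟩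
    simp only [Prod.mk.injEq] at hab
    rw [hγ a b hab.1, hγ' a b hab.2]

theorem TR.lt {F G : (ℕ → ℕ) → (ℕ → Dt V) → Mo V} (hF : TV F) (hG : TV G) :
    TR (fun a b => moLt (F a b) (G a b)) := by
  obtain ⟨K, hK, c, hc, hF⟩ := hF
  obtain ⟨K', hK', c', hc', hG⟩ := hG
  refine TR.piece (hc.prod hc') ?_
  rintro ⟨k, k'⟩
  rcases hF k with ⟨τ, hτ⟩ | ⟨γ, hγ⟩ <;> rcases hG k' with ⟨τ', hτ'⟩ | ⟨γ', hγ'⟩
  · refine ⟨_, TR.of_AR ⟨.lt τ τ', fun a => Iff.rfl⟩, fun a b hab => ?_⟩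
    simp only [Prod.mk.injEq] at hab
    rw [hτ a b hab.1, hτ' a b hab.2]
    rfl
  · refine ⟨_, TR.of_set (fun _ => True), fun a b hab => ?_⟩
    simp only [Prod.mk.injEq] at hab
    rw [hτ a b hab.1, hγ' a b hab.2]
    simp [dm, moLt]
  · refine ⟨_, TR.of_set (fun _ => False), fun a b hab => ?_⟩
    simp only [Prod.mk.injEq] at hab
    rw [hγ a b hab.1, hτ' a b hab.2]
    simp [dm, moLt]
  · refine ⟨_, TR.of_set (fun b => moLt (dm (γ b)) (dm (γ' b))), fun a b hab => ?_⟩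
    simp only [Prod.mk.injEq] at hab
    rw [hγ a b hab.1, hγ' a b hab.2]

/-- Satisfaction is tame. -/
theorem TR.sat (R : V → V → Prop) (φ : Fm) :
    ∀ s : ℕ → Bool, TR (fun a b => φ.Sat (str R) (mix s a b)) := by
  induction φ with
  | eq t t' => intro s; exact TR.eq (TV.val R s t) (TV.val R s t')
  | lt t t' => intro s; exact TR.lt (TV.val R s t) (TV.val R s t')
  | neg φ ih => intro s; exact (ih s).not
  | and φ ψ ih1 ih2 => intro s; exact (ih1 s).and (ih2 s)
  | ex i φ ih =>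
      intro s
      have := ((ih (update s i false)).exN i).or ((ih (update s i true)).exD i)
      convert this using 3 with a b
      simp only [← update_mix_nat, ← update_mix_dm, sat_ex]
      constructor
      · rintro ⟨x, hx⟩
        rcases x with m | ⟨t, ht⟩
        · exact Or.inl ⟨m, hx⟩
        · exact Or.inr ⟨⟨t, ht⟩, hx⟩
      · rintro (⟨m, hm⟩ | ⟨d, hd⟩)
        · exact ⟨_, hm⟩
        · exact ⟨_, hd⟩
  | all i φ ih =>
      intro s
      have := (((ih (update s i false)).not.exN i).or ((ih (update s i true)).not.exD i)).not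
      convert this using 3 with a b
      simp only [← update_mix_nat, ← update_mix_dm, sat_all]
      constructor
      · rintro h (⟨m, hm⟩ | ⟨d, hd⟩)
        · exact hm (h _)
        · exact hd (h _)
      · intro h x
        by_contra hx
        apply h
        rcases x with m | ⟨t, ht⟩
        · exact Or.inl ⟨m, hx⟩
        · exact Or.inr ⟨⟨t, ht⟩, hx⟩

/-- For fixed values of the variables in the set part, satisfaction is arithmetical. -/
theorem AR.sat (R : V → V → Prop) (φ : Fm) (s : ℕ → Bool) (b : ℕ → Dt V) :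
    AR (fun a => φ.Sat (str R) (mix s a b)) := by
  obtain ⟨K, hK, c, hc, h⟩ := TR.sat R φ s
  choose g hg using h
  refine (AR.exists_fin (fun k a => c a = k ∧ g k b)
    (fun k => (hc k).and (AR.const _))).of_iff (fun a => ?_)
  constructor
  · intro h1
    exact ⟨c a, rfl, (hg _ a b rfl).1 h1⟩
  · rintro ⟨k, h1, h2⟩
    exact (hg k a b h1).2 h2

end Pool.Agent.R601.QT
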