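import Pool.Agent.R601.QT.Truth

set_option autoImplicit false

namespace Pool.Agent.R601.QT

open Function Classical

/-! ### Closing a formula -/

/-- existential quantification of the variables in a list -/
def exL : List ℕ → Fm → Fm
  | [], φ => φ
  | i :: L, φ => .ex i (exL L φ)

theorem exL_free (L : List ℕ) (φ : Fm) : ∀ j ∈ (exL L φ).free, j ∈ φ.free ∧ j ∉ L := by
  induction L with
  | nil => intro j hj; exact ⟨hj, by simp⟩
  | cons i L ih =>
      intro j hj
      simp only [exL, Fm.free, Finset.mem_erase] at hj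
      have := ih j hj.2
      exact ⟨this.1, by simp [this.2, hj.1]⟩

theorem exL_sat {M : Type} (S : Str M) (L : List ℕ) (φ : Fm) : ∀ e : ℕ → M,
    (exL L φ).Sat S e ↔ ∃ e' : ℕ → M, (∀ j ∉ L, e' j = e j) ∧ φ.Sat S e' := by
  induction L with
  | nil =>
      intro e
      constructor
      · intro h; exact ⟨e, fun _ _ => rfl, h⟩
      · rintro ⟨e', h1, h2⟩
        have : e' = e := funext fun j => h1 j (by simp)
        rw [← this]; exact h2
  | cons i L ih =>
      intro e
      simp only [exL, sat_ex, ih]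
      constructor
      · rintro ⟨a, e', h1, h2⟩
        refine ⟨e', fun j hj => ?_, h2⟩
        simp only [List.mem_cons, not_or] at hj
        rw [h1 j hj.2, update_of_ne hj.1]
      · rintro ⟨e', h1, h2⟩
        refine ⟨e' i, e', fun j hj => ?_, h2⟩
        by_cases hji : j = i
        · subst hji; simp
        · rw [update_of_ne hji]
          exact h1 j (by simp [hj, hji])

/-- An arithmetical relation which depends only on the variable `v_0` is defined by a formula in
this variable. -/
theorem AR.closed {P : (ℕ → ℕ) → Prop} (h : AR P) (hP : ∀ a a', a 0 = a' 0 → (P a ↔ P a')) :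
    ∃ ψ : Fm, ψ.free ⊆ {0} ∧ ∀ a, P a ↔ ψ.Sat stdStr a := by
  obtain ⟨ψ, hψ⟩ := h
  refine ⟨exL (ψ.free.erase 0).toList ψ, ?_, ?_⟩
  · intro j hj
    have := exL_free _ _ j hj
    simp only [Finset.mem_toList, Finset.mem_erase, not_and, ne_eq] at this
    rw [Finset.mem_singleton]
    by_contra h0
    exact this.2 h0 this.1
  · intro a
    rw [exL_sat]
    constructor
    · intro ha; exact ⟨a, fun _ _ => rfl, (hψ a).1 ha⟩
    · rintro ⟨a', h1, h2⟩
      rw [← hψ] at h2
      exact (hP a a' (h1 0 (by simp)).symm).2 h2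

/-! ### Relativisation to the natural numbers, with bounded quantifiers -/

/-- renaming of the variables: `v_1` is left out -/
def rn (i : ℕ) : ℕ := if i = 0 then 0 else i + 1

theorem rn_inj {i j : ℕ} (h : rn i = rn j) : i = j := by
  unfold rn at h
  split_ifs at h <;> omega

theorem rn_ne (i : ℕ) : rn i ≠ 1 := by
  unfold rn
  split_ifs <;> omega

def Tm.rn : Tm → Tm
  | .var i => .var (QT.rn i)
  | .zero => .zero
  | .one => .one
  | .add s t => .add s.rn t.rn
  | .mul s t => .mul s.rn t.rn

/-- relativisation of the quantifiers to the natural numbers below `v_1` -/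
def Fm.rel : Fm → Fm
  | .eq s t => .eq s.rn t.rn
  | .lt s t => .lt s.rn t.rn
  | .neg φ => .neg φ.rel
  | .and φ ψ => .and φ.rel ψ.rel
  | .ex i φ => Fm.bex (rn i) (v 1) (.and (.neg (fD (rn i))) φ.rel)
  | .all i φ => Fm.ball (rn i) (v 1) (Fm.imp (.neg (fD (rn i))) φ.rel)

theorem rel_D0 : ∀ φ : Fm, IsD0 φ.rel
  | .eq _ _ => .eq _ _
  | .lt _ _ => .lt _ _
  | .neg φ => .neg (rel_D0 φ)
  | .and φ ψ => .and (rel_D0 φ) (rel_D0 ψ)
  | .ex i φ => .bex (by simp [Tm.vars, rn_ne]) (.and (.neg (.eq _ _)) (rel_D0 φ))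
  | .all i φ => .ball (by simp [Tm.vars, rn_ne]) (IsD0.imp (.neg (.eq _ _)) (rel_D0 φ))

theorem rn_vars : ∀ t : Tm, ∀ j ∈ t.rn.vars, ∃ i ∈ t.vars, j = rn i
  | .var i, j, hj => by
      simp only [Tm.rn, Tm.vars, Finset.mem_singleton] at hj
      exact ⟨i, by simp [Tm.vars], hj⟩
  | .zero, j, hj => by simp [Tm.rn, Tm.vars] at hj
  | .one, j, hj => by simp [Tm.rn, Tm.vars] at hj
  | .add s t, j, hj => by
      simp only [Tm.rn, Tm.vars, Finset.mem_union] at hj ⊢
      rcases hj with hj | hj
      · obtain ⟨i, h1, h2⟩ := rn_vars s j hj; exact ⟨i, Or.inl h1, h2⟩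
      · obtain ⟨i, h1, h2⟩ := rn_vars t j hj; exact ⟨i, Or.inr h1, h2⟩
  | .mul s t, j, hj => by
      simp only [Tm.rn, Tm.vars, Finset.mem_union] at hj ⊢
      rcases hj with hj | hj
      · obtain ⟨i, h1, h2⟩ := rn_vars s j hj; exact ⟨i, Or.inl h1, h2⟩
      · obtain ⟨i, h1, h2⟩ := rn_vars t j hj; exact ⟨i, Or.inr h1, h2⟩

theorem rel_free : ∀ φ : Fm, ∀ j ∈ φ.rel.free, j = 1 ∨ ∃ i ∈ φ.free, j = rn i
  | .eq s t, j, hj => by
      simp only [Fm.rel, Fm.free, Finset.mem_union] at hj ⊢
      rcases hj with hj | hj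
      · obtain ⟨i, h1, h2⟩ := rn_vars s j hj; exact Or.inr ⟨i, Or.inl h1, h2⟩
      · obtain ⟨i, h1, h2⟩ := rn_vars t j hj; exact Or.inr ⟨i, Or.inr h1, h2⟩
  | .lt s t, j, hj => by
      simp only [Fm.rel, Fm.free, Finset.mem_union] at hj ⊢
      rcases hj with hj | hj
      · obtain ⟨i, h1, h2⟩ := rn_vars s j hj; exact Or.inr ⟨i, Or.inl h1, h2⟩
      · obtain ⟨i, h1, h2⟩ := rn_vars t j hj; exact Or.inr ⟨i, Or.inr h1, h2⟩
  | .neg φ, j, hj => rel_free φ j hj
  | .and φ ψ, j, hj => by
      simp only [Fm.rel, Fm.free, Finset.mem_union] at hj ⊢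
      rcases hj with hj | hj
      · rcases rel_free φ j hj with h | ⟨i, h1, h2⟩
        · exact Or.inl h
        · exact Or.inr ⟨i, Or.inl h1, h2⟩
      · rcases rel_free ψ j hj with h | ⟨i, h1, h2⟩
        · exact Or.inl h
        · exact Or.inr ⟨i, Or.inr h1, h2⟩
  | .ex i φ, j, hj => by
      simp only [Fm.rel, Fm.bex, fD, suc, v, Fm.free, Tm.vars, Finset.mem_union, Finset.mem_erase,
        Finset.mem_singleton, Finset.notMem_empty, or_false, or_self] at hj
      obtain ⟨h1, (h2 | h2) | (h2 | h2)⟩ := hj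
      · exact absurd h2 h1
      · exact Or.inl h2
      · exact absurd h2 h1
      · rcases rel_free φ j h2 with h | ⟨i', h3, h4⟩
        · exact Or.inl h
        · right
          refine ⟨i', ?_, h4⟩
          simp only [Fm.free, Finset.mem_erase]
          exact ⟨fun h => h1 (by rw [h4, h]), h3⟩
  | .all i φ, j, hj => by
      simp only [Fm.rel, Fm.ball, Fm.imp, fD, suc, v, Fm.free, Tm.vars, Finset.mem_union,
        Finset.mem_erase, Finset.mem_singleton, Finset.notMem_empty, or_false, or_self] at hj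
      obtain ⟨h1, (h2 | h2) | (h2 | h2)⟩ := hj
      · exact absurd h2 h1
      · exact Or.inl h2
      · exact absurd h2 h1
      · rcases rel_free φ j h2 with h | ⟨i', h3, h4⟩
        · exact Or.inl h
        · right
          refine ⟨i', ?_, h4⟩
          simp only [Fm.free, Finset.mem_erase]
          exact ⟨fun h => h1 (by rw [h4, h]), h3⟩

variable {V : Type} (R : V → V → Prop)

theorem rn_val {e : ℕ → Mo V} {a : ℕ → ℕ} (he : ∀ i, e (rn i) = .nat (a i)) :
    ∀ t : Tm, t.rn.val (str R) e = .nat (t.val stdStr a)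
  | .var i => he i
  | .zero => rfl
  | .one => rfl
  | .add s t => by simp only [Tm.rn, Tm.val, rn_val he s, rn_val he t]; rfl
  | .mul s t => by simp only [Tm.rn, Tm.val, rn_val he s, rn_val he t]; rfl

theorem rel_sat : ∀ (φ : Fm) (e : ℕ → Mo V) (a : ℕ → ℕ) (d : Dt V),
    (∀ i, e (rn i) = .nat (a i)) → e 1 = dm d → (φ.rel.Sat (str R) e ↔ φ.Sat stdStr a)
  | .eq s t, e, a, d, he, _ => by
      simp only [Fm.rel, sat_eq, rn_val R he]
      simp
  | .lt s t, e, a, d, he, _ => by
      simp only [Fm.rel, sat_lt, rn_val R he]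
      rfl
  | .neg φ, e, a, d, he, hd => by
      simp only [Fm.rel, sat_neg, rel_sat φ e a d he hd]
  | .and φ ψ, e, a, d, he, hd => by
      simp only [Fm.rel, sat_and, rel_sat φ e a d he hd, rel_sat ψ e a d he hd]
  | .ex i φ, e, a, d, he, hd => by
      have h1 : ∀ (n j : ℕ), update e (rn i) (.nat n) (rn j) = .nat (update a i n j) := by
        intro n j
        by_cases hj : j = i
        · subst hj; simp
        · rw [update_of_ne (fun h => hj (rn_inj h)), update_of_ne hj, he]
      have h2 : ∀ x : Mo V, update e (rn i) x 1 = dm d := by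
        intro x
        rw [update_of_ne (rn_ne i).symm, hd]
      simp only [Fm.rel, sat_bex, sat_and, sat_neg, fD_sat, update_self, sat_ex, Tm.val, h2,
        str_lt]
      constructor
      · rintro ⟨x, _, h4, h5⟩
        rcases x with n | ⟨t, ht⟩
        · exact ⟨n, (rel_sat φ _ _ d (h1 n) (h2 _)).1 h5⟩
        · exact absurd ⟨t, ht, rfl⟩ h4
      · rintro ⟨n, hn⟩
        refine ⟨.nat n, trivial, ?_, (rel_sat φ _ _ d (h1 n) (h2 _)).2 hn⟩
        rintro ⟨s, hs, h⟩
        cases h
  | .all i φ, e, a, d, he, hd => by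
      have h1 : ∀ (n j : ℕ), update e (rn i) (.nat n) (rn j) = .nat (update a i n j) := by
        intro n j
        by_cases hj : j = i
        · subst hj; simp
        · rw [update_of_ne (fun h => hj (rn_inj h)), update_of_ne hj, he]
      have h2 : ∀ x : Mo V, update e (rn i) x 1 = dm d := by
        intro x
        rw [update_of_ne (rn_ne i).symm, hd]
      simp only [Fm.rel, sat_ball, sat_imp, sat_neg, fD_sat, update_self, sat_all, Tm.val, h2,
        str_lt]
      constructor
      · intro h n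
        refine (rel_sat φ _ _ d (h1 n) (h2 _)).1 (h (.nat n) trivial ?_)
        rintro ⟨s, hs, h⟩
        cases h
      · intro h x _ h4
        rcases x with n | ⟨t, ht⟩
        · exact (rel_sat φ _ _ d (h1 n) (h2 _)).2 (h n)
        · exact absurd ⟨t, ht, rfl⟩ h4

theorem num_str (k : ℕ) : num (str R) k = .nat k := by
  induction k with
  | zero => rfl
  | succ k ih => simp only [num, ih, str_add, str_one, moAdd]

/-- The diagonal formula: for some assignment `v_1` which gives the variable number `0` the value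
`v_0` and the variable number `1` the value `v_2`, the formula with code `v_0` is true under
`v_1`. -/
def diag (σ ν : Fm) : Fm :=
  .ex 1 (.and
    (.ex 3 (.and (.eq (v 3) (v 0)) (.ex 0 (.and (.eq (v 0) .zero)
      (.ex 2 (.and (.eq (v 2) (v 3)) ν))))))
    (.and (.ex 0 (.and (.eq (v 0) (suc .zero)) ν)) σ))

theorem diag_sat {M : Type} (S : Str M) {σ ν : Fm} (hσ : σ.free ⊆ {0, 1})
    (hν : ν.free ⊆ {0, 1, 2}) (e : ℕ → M) : (diag σ ν).Sat S e ↔
      ∃ y, Sat3 S ν (num S 0) y (e 0) ∧ Sat3 S ν (num S 1) y (e 2) ∧ Sat2 S σ (e 0) y := by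
  simp only [diag, sat_ex, sat_and, sat_eq, Tm.val]
  apply exists_congr
  intro y
  have hA : (∃ a, update (update e 1 y) 3 a 3 = update (update e 1 y) 3 a 0 ∧
      ∃ b, update (update (update e 1 y) 3 a) 0 b 0 = S.zero ∧
        ∃ c, update (update (update (update e 1 y) 3 a) 0 b) 2 c 2 =
          update (update (update (update e 1 y) 3 a) 0 b) 2 c 3 ∧
          ν.Sat S (update (update (update (update e 1 y) 3 a) 0 b) 2 c)) ↔
      Sat3 S ν (num S 0) y (e 0) := by
    have key : ν.Sat S (update (update (update (update e 1 y) 3 (e 0)) 0 S.zero) 2 (e 0)) ↔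
        Sat3 S ν (num S 0) y (e 0) := by
      unfold Sat3
      apply Fm.sat_congr
      intro i hi
      have := hν hi
      simp only [Finset.mem_insert, Finset.mem_singleton] at this
      rcases this with rfl | rfl | rfl <;> simp [update, num]
    rw [← key]
    constructor
    · rintro ⟨a, h1, b, h2, c, h3, h4⟩
      simp [update] at h1 h2 h3
      subst h1; subst h2; subst h3
      exact h4
    · intro h
      refine ⟨e 0, by simp [update], S.zero, by simp, e 0, by simp [update], h⟩
  have hB : (∃ b, update (update e 1 y) 0 b 0 = S.add S.zero S.one ∧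
      ν.Sat S (update (update e 1 y) 0 b)) ↔ Sat3 S ν (num S 1) y (e 2) := by
    have key : ν.Sat S (update (update e 1 y) 0 (S.add S.zero S.one)) ↔
        Sat3 S ν (num S 1) y (e 2) := by
      unfold Sat3
      apply Fm.sat_congr
      intro i hi
      have := hν hi
      simp only [Finset.mem_insert, Finset.mem_singleton] at this
      rcases this with rfl | rfl | rfl <;> simp [update, num]
    rw [← key]
    constructor
    · rintro ⟨b, h1, h2⟩
      simp only [update_self] at h1
      subst h1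
      exact h2
    · intro h
      exact ⟨_, by simp, h⟩
  have hC : σ.Sat S (update e 1 y) ↔ Sat2 S σ (e 0) y := by
    unfold Sat2
    apply Fm.sat_congr
    intro i hi
    have := hσ hi
    simp only [Finset.mem_insert, Finset.mem_singleton] at this
    rcases this with rfl | rfl <;> simp [update]
  rw [hA, hB, hC]

theorem not_truth (left : Bool) [hV : Nonempty V] : Th (str R) ∉ Ttruth left := by
  rintro ⟨_, code, σ, ν, hσ, hν, h⟩
  have hT := h _ _ (models_Th (str R))
  obtain ⟨w⟩ := hV
  set d : Dt V := ⟨{w}, Finset.singleton_nonempty w⟩ with hd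
  -- the diagonal set is arithmetical
  have hAR : AR (fun a => (diag σ ν).Sat (str R) (mix (fun i => decide (i = 2)) a (fun _ => d))) :=
    AR.sat R _ _ _
  have hdep : ∀ a : ℕ → ℕ,
      (diag σ ν).Sat (str R) (mix (fun i => decide (i = 2)) a (fun _ => d)) ↔
      ∃ y, Sat3 (str R) ν (num (str R) 0) y (.nat (a 0)) ∧
        Sat3 (str R) ν (num (str R) 1) y (dm d) ∧ Sat2 (str R) σ (.nat (a 0)) y := by
    intro a
    rw [diag_sat _ hσ hν]
    rfl
  obtain ⟨ψ, hψ0, hψ⟩ := hAR.closed (fun a a' haa => by rw [hdep, hdep, haa])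
  set δ : Fm := .neg ψ.rel with hδ
  have hδ0 : IsD0 δ := .neg (rel_D0 ψ)
  have hfree : ∀ j ∈ δ.free, j = 0 ∨ j = 1 := by
    intro j hj
    rcases rel_free ψ j hj with h1 | ⟨i, h1, h2⟩
    · exact Or.inr h1
    · have h3 := Finset.mem_singleton.1 (hψ0 h1)
      rw [h2, h3]
      exact Or.inl rfl
  set k := code δ with hk
  set e₀ : ℕ → Mo V := fun j => if j = 1 then dm d else .nat (if j = 0 then k else 0) with he₀
  have hsat : δ.Sat (str R) e₀ ↔
      ¬ ∃ y, Sat3 (str R) ν (num (str R) 0) y (.nat k) ∧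
        Sat3 (str R) ν (num (str R) 1) y (dm d) ∧ Sat2 (str R) σ (.nat k) y := by
    rw [hδ, sat_neg, rel_sat R ψ e₀ (fun i => if i = 0 then k else 0) d, ← hψ, hdep]
    · simp
    · intro i
      simp only [he₀, rn_ne, if_false, Mo.nat.injEq]
      by_cases hi : i = 0
      · simp [hi, rn]
      · simp [hi, rn]
    · simp [he₀]
  have hass : ∀ y, Sat3 (str R) ν (num (str R) 0) y (.nat k) →
      Sat3 (str R) ν (num (str R) 1) y (dm d) →
      (Sat2 (str R) σ (.nat k) y ↔ δ.Sat (str R) e₀) := by
    intro y h1 h2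
    have := hT.bicond hδ0 y e₀ (by
      intro i hi
      rcases hfree i hi with rfl | rfl
      · simpa [he₀] using h1
      · simpa [he₀] using h2)
    rw [← hk, num_str] at this
    exact this
  obtain ⟨y, hy⟩ := hT.exists_assignment {0, 1} e₀
  have hy0 : Sat3 (str R) ν (num (str R) 0) y (.nat k) := by
    have := hy 0 (by simp)
    simpa [he₀] using this
  have hy1 : Sat3 (str R) ν (num (str R) 1) y (dm d) := by
    have := hy 1 (by simp)
    simpa [he₀] using this
  by_cases hs : δ.Sat (str R) e₀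
  · exact (hsat.1 hs) ⟨y, hy0, hy1, (hass y hy0 hy1).2 hs⟩
  · rw [hsat, not_not] at hs
    obtain ⟨y', h1, h2, h3⟩ := hs
    have h4 := (hass y' h1 h2).1 h3
    exact (hsat.1 h4) ⟨y', h1, h2, h3⟩

end Pool.Agent.R601.QT
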